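import Pool.Agent.Q259.SPQ.Stmts

/-! Assembly for MP_307271_an, Q2. -/

namespace Pool.Agent.Q259.SPQ.Asm
open Filter Topology Pool.Agent.Q259.SPQ

/-- the homeomorphism -/
def homeo (h : TaskShift) : XX ≃ₜ XX where
  toFun := shX
  invFun := shX'
  left_inv := h.2.2.1
  right_inv := h.2.2.2
  continuous_toFun := h.1
  continuous_invFun := h.2.1

theorem main (hShift : TaskShift) (hCompact : TaskCompact) (hClosed : TaskClosed)
    (hDense : TaskDense) (hEnt : TaskEnt) (hGen : TaskGen) (hSepList : TaskSepList)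
    (hSpanList : TaskSpanList) (hSpanLow : TaskSpanLow) (hGrow : TaskGrow) (hRate : TaskRate)
    (hLogBd : TaskLogBd) (hMul : TaskMul) (hWnUp : TaskWnUp) (hSepLow : TaskSepLow)
    (hWnLow : TaskWnLow) (hSepUp : TaskSepUp) (hSpanUp : TaskSpanUp) (hSmallLow : TaskSmallLow)
    (hSmallUp : TaskSmallUp) (hMid : TaskMid) (hBig : TaskBig) (hSpanPts : TaskSpanPts)
    (hSepPts : TaskSepPts) (hLim : TaskLim) :
    ∃ (X : Type) (_ : MetricSpace X) (_ : CompactSpace X) (F : X ≃ₜ X),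
      (∃ x : X, Dense (Set.range fun m : ℕ => (⇑F)^[m] x)) ∧
      (∃ C : ℝ, ∀ ε : ℝ, 0 < ε → ∀ᶠ T : ℕ in atTop, Real.log (sep F ε T) / T ≤ C) ∧
      (∃ ε : ℝ, 0 < ε ∧
        liminf (fun T : ℕ => Real.log (span F ε T) / T) atTop <
          limsup (fun T : ℕ => Real.log (span F ε T) / T) atTop) ∧
      ∀ δ : ℝ, 0 < δ → ∃ L : ℝ,
        Tendsto (fun T : ℕ => Real.log (sep F δ T) / T) atTop (𝓝 L) := by
  haveI : CompactSpace Full := hCompact
  have hcs : CompactSpace XX := isCompact_iff_compactSpace.mp (IsClosed.isCompact hClosed)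
  obtain ⟨x, hx⟩ := hDense
  haveI : Nonempty XX := ⟨x⟩
  have hb : ∀ ε : ℝ, 0 < ε → ∃ K : ℕ, ∀ T, 0 < T →
      1 ≤ span shX ε T ∧ span shX ε T ≤ sep shX ε T ∧ sep shX ε T ≤ K * 11 ^ T ∧
      (∃ S : Finset XX, S.card = sep shX ε T ∧ Separated shX ε T S) ∧
      ∃ S : Finset XX, S.card = span shX ε T ∧ Spanning shX ε T S := by
    intro ε hε
    obtain ⟨K, hK⟩ := hEnt ε hε
    exact ⟨K, fun T hT => hGen XX shX ε T (K * 11 ^ T) hT hε fun S hS => hK T S hT hS⟩
  have hge : ∀ (ε : ℝ) (T : ℕ) (S : Finset XX), 0 < ε → 0 < T → Separated shX ε T S →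
      S.card ≤ sep shX ε T := by
    intro ε T S hε hT hS
    obtain ⟨K, hK⟩ := hEnt ε hε
    refine le_csSup ⟨K * 11 ^ T, ?_⟩ ⟨S, rfl, hS⟩
    rintro m ⟨S', rfl, hS'⟩
    exact hK T S' hT hS'
  obtain ⟨K, hK⟩ := hb 1 one_pos
  have hg0 : ∀ k, 0 < g k := fun k => by have := hGrow.2.1 k; omega
  have hup : ∀ k, span shX 1 (g k) ≤ 8 * (g k + 1) * 2 ^ (g k) := by
    intro k
    obtain ⟨S, h1, h2, h3⟩ := hSpanUp k
    obtain ⟨S', h4, h5⟩ := hSpanPts (g k) S (hg0 k) h1 h2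
    have h6 : span shX 1 (g k) ≤ S'.card := Nat.sInf_le ⟨S', rfl, h5⟩
    exact h6.trans (h4.trans h3)
  have hlow : ∀ k, 5 ^ (g k ^ 2) ≤ span shX 1 (2 * g k ^ 2 + g k + 2) := by
    intro k
    obtain ⟨_, _, _, _, S, hS, hS'⟩ := hK (2 * g k ^ 2 + g k + 2) (by omega)
    obtain ⟨S', h1, h2, h3⟩ := hSpanList (2 * g k ^ 2 + g k + 2) S (by omega) hS'
    rw [← hS]
    exact (hSpanLow k S' h2 h3).trans h1
  -- the limit for `δ = 1`
  have hone : Tendsto (fun T : ℕ => Real.log (sep shX 1 T) / T) atTop (𝓝 (Real.log (4 : ℕ))) := by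
    refine hLim (fun T => sep shX 1 T) (Wn true) g 4 0 hGrow.1 hGrow.2.1 (by norm_num)
      (hMul true) (fun k => ?_) (fun T hT => ?_) (fun T hT => ?_)
    · have := hWnUp true k
      simpa [mb] using this
    · obtain ⟨_, _, _, ⟨S, hS, hS'⟩, _⟩ := hK T hT
      obtain ⟨S', h1, h2, h3⟩ := hSepList T S hT hS'
      show sep shX 1 T ≤ Wn true (T + 0)
      rw [← hS, ← h1, Nat.add_zero]
      exact hSepUp T S' h2 h3
    · obtain ⟨S, h1, h2, h3⟩ := hSepLow T
      obtain ⟨S', h4, h5⟩ := hSepPts T S hT h1 h2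
      have := hge 1 T S' one_pos hT h5
      show 4 ^ T ≤ sep shX 1 T
      omega
  refine ⟨XX, inferInstance, hcs, homeo hShift, ⟨x, hx⟩, ⟨Real.log 11 + 1, ?_⟩, ⟨1, one_pos, ?_⟩, ?_⟩
  · intro ε hε
    obtain ⟨K', hK'⟩ := hb ε hε
    exact hLogBd (fun T => sep shX ε T) K' fun T hT => (hK' T hT).2.2.1
  · refine hRate (fun T => span shX 1 T) g K hGrow.1 hGrow.2.1 (fun T hT => ?_) hup hlow
    exact ⟨(hK T hT).1, (hK T hT).2.1.trans (hK T hT).2.2.1⟩
  · intro δ hδ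
    show ∃ L : ℝ, Tendsto (fun T : ℕ => Real.log (sep shX δ T) / T) atTop (𝓝 L)
    obtain ⟨K', hK'⟩ := hb δ hδ
    rcases le_or_gt δ (1 / 2) with h1 | h1
    · refine ⟨Real.log (5 : ℕ), ?_⟩
      obtain ⟨j, hj⟩ := hSmallUp δ hδ
      refine hLim (fun T => sep shX δ T) (Wn false) g 5 j hGrow.1 hGrow.2.1 (by norm_num)
        (hMul false) (fun k => ?_) (fun T hT => ?_) (fun T hT => ?_)
      · have := hWnUp false k
        simpa [mb] using this
      · obtain ⟨_, _, _, ⟨S, hS, hS'⟩, _⟩ := hK' T hT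
        show sep shX δ T ≤ Wn false (T + j)
        rw [← hS]
        exact hj T S hT hS'
      · obtain ⟨S, h2, h3⟩ := hSmallLow δ T hδ h1 hT
        have h4 := hge δ T S hδ hT h3
        have h5 := hWnLow T
        show 5 ^ T ≤ sep shX δ T
        omega
    · rcases le_or_gt δ 1 with h2 | h2
      · refine ⟨Real.log (4 : ℕ), hone.congr' ?_⟩
        filter_upwards [eventually_gt_atTop 0] with T hT
        have h3 : sep shX 1 T = sep shX δ T := by
          unfold sep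
          congr 1
          ext m
          constructor
          · rintro ⟨S, hS, hS'⟩
            exact ⟨S, hS, (hMid δ T S h1 h2 hT).2 hS'⟩
          · rintro ⟨S, hS, hS'⟩
            exact ⟨S, hS, (hMid δ T S h1 h2 hT).1 hS'⟩
        rw [h3]
      · refine ⟨0, ?_⟩
        refine tendsto_const_nhds.congr' ?_
        filter_upwards [eventually_gt_atTop 0] with T hT
        obtain ⟨h3, h4, _, ⟨S, hS, hS'⟩, _⟩ := hK' T hT
        have h5 := hBig δ T S h2 hT hS'
        have h6 : sep shX δ T = 1 := by omega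
        rw [h6]
        simp

end Pool.Agent.Q259.SPQ.Asm
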