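import Mathlib

/-! Blueprint for MP_307271_an, Q2: definitions (after helper41's for Q1). -/

namespace Pool.Agent.Q259.SPQ
open Filter Topology

/-- the five letters -/
abbrev V := Fin 5

/-- not distinguishable letters: in the phase `true` the star with the centre `0`, in the phase
`false` the star with the centre `1` on `1, 2, 3, 4` -/
def nd (c : Bool) (u v : V) : Prop :=
  u = v ∨ (c = true ∧ (u = 0 ∨ v = 0)) ∨ (c = false ∧ ((u = 1 ∧ v ≠ 0) ∨ (v = 1 ∧ u ≠ 0)))

instance (c : Bool) (u v : V) : Decidable (nd c u v) := by unfold nd; infer_instance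

/-- the alphabet: `none` is the zero symbol, `some (v, c)` is the letter `v` in the phase `c` -/
abbrev Sym := Option (V × Bool)

/-- distinguishable symbols -/
def dis : Sym → Sym → Prop
  | none, none => False
  | none, some _ => True
  | some _, none => True
  | some (u, c), some (v, c') => c ≠ c' ∨ ¬ nd c u v

/-- `m` zero symbols -/
def Z (m : ℕ) : List Sym := List.replicate m none

/-- the word `w` in the phase `c` -/
def W (c : Bool) (w : List V) : List Sym := w.map fun v => some (v, c)

/-- all words of length `m` over `V` -/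
noncomputable def words (m : ℕ) : List (List V) :=
  (Finset.univ : Finset (Fin m → V)).toList.map List.ofFn

/-- the block of `w`, followed by `g` zeros -/
def blk (g : ℕ) (w : List V) : List Sym := W true w ++ Z g ++ W false w ++ Z g

/-- one step of the construction -/
noncomputable def step (L : List Sym) : List Sym :=
  L ++ Z (L.length + 1) ++ (words ((L.length + 1) ^ 2)).flatMap (blk (L.length + 1)) ++ L

/-- the words `P_k` -/
noncomputable def P : ℕ → List Sym
  | 0 => [none]
  | k + 1 => step (P k)

/-- the gap -/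
noncomputable def g (k : ℕ) : ℕ := (P k).length + 1

/-- the block length -/
noncomputable def n (k : ℕ) : ℕ := g k ^ 2

/-- the language -/
def Lang (u : List Sym) : Prop := ∃ k, u <:+: P k

/-- two lists differ distinguishably at some place -/
def LDis (u v : List Sym) : Prop :=
  ∃ (i : ℕ) (a b : Sym), u[i]? = some a ∧ v[i]? = some b ∧ dis a b

/-- the windows of length `≤ T` seen near `Q`, or near the end of a long word in one phase -/
def Fam (T : ℕ) (Q u : List Sym) : Prop :=
  u <:+: Z T ++ Q ++ Z T ∨ ∃ c p w, u = Z p ++ W c w ∨ u = W c w ++ Z p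

/-- all short windows are in the family -/
def Good (T : ℕ) (Q L : List Sym) : Prop :=
  ∀ u, u <:+: Z T ++ L ++ Z T → u.length ≤ T → Fam T Q u

/-- the two-sided sequences -/
def Full : Type := ℤ → Sym

open Classical in
/-- the distance of two symbols -/
noncomputable def d (a b : Sym) : ℝ := if a = b then 0 else if dis a b then 1 else 1 / 2

theorem d_nonneg (a b : Sym) : 0 ≤ d a b := by
  unfold d; split_ifs <;> norm_num

theorem d_le (a b : Sym) : d a b ≤ 1 := by
  unfold d; split_ifs <;> norm_num

theorem nd_symm (c : Bool) (u v : V) : nd c u v ↔ nd c v u := by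
  unfold nd
  constructor
  · rintro (h | ⟨h, h'⟩ | ⟨h, h'⟩)
    · exact Or.inl h.symm
    · exact Or.inr (Or.inl ⟨h, h'.symm⟩)
    · exact Or.inr (Or.inr ⟨h, h'.symm⟩)
  · rintro (h | ⟨h, h'⟩ | ⟨h, h'⟩)
    · exact Or.inl h.symm
    · exact Or.inr (Or.inl ⟨h, h'.symm⟩)
    · exact Or.inr (Or.inr ⟨h, h'.symm⟩)

theorem dis_symm (a b : Sym) : dis a b → dis b a := by
  rcases a with _ | ⟨u, c⟩ <;> rcases b with _ | ⟨v, c'⟩ <;> simp only [dis, imp_self]
  intro h
  by_cases hc : c = c'
  · subst hc
    rcases h with h | h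
    · exact absurd rfl h
    · exact Or.inr fun h' => h ((nd_symm _ _ _).1 h')
  · exact Or.inl fun h' => hc h'.symm

theorem d_comm (a b : Sym) : d a b = d b a := by
  unfold d
  by_cases h : a = b
  · subst h; rfl
  · rw [if_neg h, if_neg (Ne.symm h)]
    by_cases h' : dis a b
    · rw [if_pos h', if_pos (dis_symm _ _ h')]
    · rw [if_neg h', if_neg fun h'' => h' (dis_symm _ _ h'')]

theorem d_tri (a b c : Sym) : d a c ≤ d a b + d b c := by
  by_cases h1 : a = b
  · subst h1; have : d a a = 0 := by simp [d]
    linarith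
  by_cases h2 : b = c
  · subst h2; have : d b b = 0 := by simp [d]
    linarith
  have h3 : 1 / 2 ≤ d a b := by
    unfold d; rw [if_neg h1]; split_ifs <;> norm_num
  have h4 : 1 / 2 ≤ d b c := by
    unfold d; rw [if_neg h2]; split_ifs <;> norm_num
  have := d_le a c
  linarith

/-- the distance of two sequences -/
noncomputable def DD (x y : Full) : ℝ := ⨆ m : ℤ, (1 / 4 : ℝ) ^ m.natAbs * d (x m) (y m)

theorem term_le (x y : Full) (m : ℤ) : (1 / 4 : ℝ) ^ m.natAbs * d (x m) (y m) ≤ 1 := by
  have h1 : (1 / 4 : ℝ) ^ m.natAbs ≤ 1 := pow_le_one₀ (by norm_num) (by norm_num)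
  have h2 : (0 : ℝ) ≤ (1 / 4 : ℝ) ^ m.natAbs := by positivity
  nlinarith [d_nonneg (x m) (y m), d_le (x m) (y m)]

theorem term_nonneg (x y : Full) (m : ℤ) : 0 ≤ (1 / 4 : ℝ) ^ m.natAbs * d (x m) (y m) :=
  mul_nonneg (by positivity) (d_nonneg _ _)

theorem bdd (x y : Full) : BddAbove (Set.range fun m : ℤ => (1 / 4 : ℝ) ^ m.natAbs * d (x m) (y m)) :=
  ⟨1, by rintro _ ⟨m, rfl⟩; exact term_le x y m⟩

theorem le_DD (x y : Full) (m : ℤ) : (1 / 4 : ℝ) ^ m.natAbs * d (x m) (y m) ≤ DD x y :=
  le_ciSup (bdd x y) m

noncomputable instance : MetricSpace Full where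
  dist := DD
  dist_self x := by
    show DD x x = 0
    unfold DD
    simp [d]
  dist_comm x y := by
    show DD x y = DD y x
    unfold DD
    simp only [d_comm]
  dist_triangle x y w := by
    show DD x w ≤ DD x y + DD y w
    refine ciSup_le fun m => ?_
    have h1 := le_DD x y m
    have h2 := le_DD y w m
    have h3 := d_tri (x m) (y m) (w m)
    have h4 : (0 : ℝ) ≤ (1 / 4 : ℝ) ^ m.natAbs := by positivity
    nlinarith [mul_le_mul_of_nonneg_left h3 h4]
  eq_of_dist_eq_zero := by
    intro x y h
    have h' : DD x y = 0 := h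
    funext m
    by_contra hne
    have h1 := le_DD x y m
    rw [h'] at h1
    have h2 : 1 / 2 ≤ d (x m) (y m) := by
      unfold d; rw [if_neg hne]; split_ifs <;> norm_num
    have h3 : (0 : ℝ) < (1 / 4 : ℝ) ^ m.natAbs := by positivity
    nlinarith

theorem dist_def (x y : Full) : dist x y = DD x y := rfl

/-- the window of `x` of length `m` that starts at `a` -/
def win (x : Full) (a : ℤ) (m : ℕ) : List Sym := List.ofFn fun i : Fin m => x (a + (i : ℕ))

/-- the subshift -/
def XX : Set Full := {x | ∀ (a : ℤ) (m : ℕ), Lang (win x a m)}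

/-- the shift on all sequences -/
def shift (x : Full) : Full := fun m => x (m + 1)

/-- the inverse of the shift -/
def shift' (x : Full) : Full := fun m => x (m - 1)

theorem win_shift (x : Full) (a : ℤ) (m : ℕ) : win (shift x) a m = win x (a + 1) m := by
  unfold win shift
  congr 1
  funext i
  congr 1
  ring

theorem win_shift' (x : Full) (a : ℤ) (m : ℕ) : win (shift' x) a m = win x (a - 1) m := by
  unfold win shift'
  congr 1
  funext i
  congr 1
  ring

/-- the shift on the subshift -/
def shX (x : XX) : XX := ⟨shift x.1, fun a m => by rw [win_shift]; exact x.2 _ _⟩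

/-- its inverse -/
def shX' (x : XX) : XX := ⟨shift' x.1, fun a m => by rw [win_shift']; exact x.2 _ _⟩

/-! ### the quantities of the problem -/

section general
variable {X : Type} [MetricSpace X]

/-- `D_T` -/
noncomputable def DT (F : X → X) (T : ℕ) (x y : X) : ℝ :=
  ⨆ t : Fin T, dist (F^[(t : ℕ)] x) (F^[(t : ℕ)] y)

/-- `S` is `ε`-separated for `D_T` -/
def Separated (F : X → X) (ε : ℝ) (T : ℕ) (S : Finset X) : Prop :=
  ∀ x ∈ S, ∀ y ∈ S, x ≠ y → ε ≤ DT F T x y

/-- `S` is `ε`-spanning for `D_T` -/
def Spanning (F : X → X) (ε : ℝ) (T : ℕ) (S : Finset X) : Prop :=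
  ∀ x, ∃ s ∈ S, DT F T s x < ε

/-- the largest size of a separated set -/
noncomputable def sep (F : X → X) (ε : ℝ) (T : ℕ) : ℕ :=
  sSup {m : ℕ | ∃ S : Finset X, S.card = m ∧ Separated F ε T S}

/-- the smallest size of a spanning set -/
noncomputable def span (F : X → X) (ε : ℝ) (T : ℕ) : ℕ :=
  sInf {m : ℕ | ∃ S : Finset X, S.card = m ∧ Spanning F ε T S}

end general

/-! ### counting words -/

/-- for `b = true`: identify `0, 1` in the phase `true`, and `1, 2` in the phase `false` -/
def ph (b : Bool) : Sym → Sym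
  | none => none
  | some (u, c) => if b = true then (if c = true then (if u = 1 then some (0, c) else some (u, c))
      else (if u = 2 then some (1, c) else some (u, c))) else some (u, c)

/-- the number of the words of length `T` of the language, up to `ph b` -/
noncomputable def Wn (b : Bool) (T : ℕ) : ℕ :=
  ((fun u : List Sym => u.map (ph b)) '' {u | Lang u ∧ u.length = T}).ncard

/-- `4` or `5` -/
def mb (b : Bool) : ℕ := if b = true then 4 else 5

end Pool.Agent.Q259.SPQ
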