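import Pool.Agent.Q259.SPQ.Defs

/-! Blueprint for MP_307271_an, Q1: the statements.  Each `TaskX` is a `Prop`; prove
`theorem main (h : TaskDep) … : TaskX` (the tasks named in `deps` may be hypotheses). -/

namespace Pool.Agent.Q259.SPQ
open Filter Topology

/-- Gluing: an infix of length `≤ T` of `Z T ++ L₁ ++ Z g ++ L₂ ++ Z T` cannot meet `L₁` and `L₂`
both; it lies in `Z T ++ L₁ ++ Z T` or in `Z T ++ L₂ ++ Z T` or is `Z p = Z p ++ W c []`. -/
def TaskGlue : Prop := ∀ (T : ℕ) (Q L₁ L₂ : List Sym) (g : ℕ), T ≤ g →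
  Good T Q L₁ → Good T Q L₂ → Good T Q (L₁ ++ Z g ++ L₂)

/-- An infix of length `≤ T ≤ |w|` of `Z T ++ W c w ++ Z T` is `Z p ++ W c w'` or `W c w' ++ Z p`. -/
def TaskWord : Prop := ∀ (T : ℕ) (Q : List Sym) (c : Bool) (w : List V), T ≤ w.length →
  Good T Q (W c w)

/-- Induction on `j ≥ k` with TaskGlue and TaskWord (`Good T Q Q` is trivial; inner induction on
the list of words: note `blk g w` ends with `Z g`, and `Good T Q (L ++ Z g)` follows from
`Good T Q (L ++ Z g ++ [])`; `n j ≥ g j ≥ g k`). -/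
def TaskGoodP : Prop := ∀ k j : ℕ, k ≤ j → Good (g k) (P k) (P j)

/-- Every word of length `g k` of the language is in the family (from TaskGoodP; `P j` is a prefix
of `P (j + 1)`). -/
def TaskLangFam : Prop := ∀ (k : ℕ) (u : List Sym), Lang u → u.length = g k → Fam (g k) (P k) u

/-- A list that is a concatenation of tokens `[none]` and
`W true w ++ Z (g i) ++ W false w ++ [none]` (`|w| = n i`). -/
def Tok (L : List Sym) : Prop := ∃ l : List (List Sym), L = l.flatten ∧ ∀ t ∈ l, t = [none] ∨
  ∃ (i : ℕ) (w : List V), w.length = n i ∧ t = W true w ++ Z (g i) ++ W false w ++ [none]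

/-- Every `P k` is a concatenation of tokens (`Z m` is one; `blk` is a token and zeros). -/
def TaskTokP : Prop := ∀ k, Tok (P k)

/-- Parsing: in a concatenation of tokens a zero followed by a maximal run of `n k` symbols of phase
`true`, then a zero, can only be the beginning of a token with `i = k` (`g`, `n` are strictly
increasing, `g i ≥ 1`, `n i ≥ 1`).  Induction on the list of tokens. -/
def TaskParse : Prop := ∀ (L : List Sym) (k : ℕ) (U U' : List V), Tok L → U.length = n k →
  U'.length = n k → ([none] ++ W true U ++ Z (g k) ++ W false U' ++ [none]) <:+: L → U = U'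

/-- The growth: `g` is strictly increasing (`|P (k+1)| ≥ |P k| + (|P k| + 1)`), so `g k ≥ k + 2`. -/
def TaskGrow : Prop := StrictMono g ∧ (∀ k, k + 2 ≤ g k) ∧
  ∀ j k, j ≤ k → P j <+: P k

/-- The windows `[none] ++ W true w ++ Z (g k) ++ W false w ++ [none]`, `|w| = n k`, are in the
language (look at `P (k + 1)`; before each block there is a zero). -/
def TaskBlk : Prop := ∀ (k : ℕ) (w : List V), w.length = n k →
  Lang ([none] ++ W true w ++ Z (g k) ++ W false w ++ [none])

/-- Spanning: from TaskParse, TaskTokP, TaskBlk.  If `s` in the language is not distinguished from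
the window of `w` at any place, it has the same zeros and phases (`dis` is true for zero/non-zero
and for different phases), so it is `[none] ++ W true U ++ Z (g k) ++ W false U' ++ [none]`, so
`U = U'` by TaskParse, so `U = w` (two different triples are distinguishable in exactly one phase).
So the `5 ^ n k` windows need different elements of `S` . -/
def TaskSpanLow : Prop := ∀ (k : ℕ) (S : Finset (List Sym)),
  (∀ s ∈ S, Lang s ∧ s.length = 2 * n k + g k + 2) →
  (∀ u, Lang u → u.length = 2 * n k + g k + 2 → ∃ s ∈ S, ¬ LDis s u) → 5 ^ (n k) ≤ S.card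

/-- `D (x, y) ≥ 1` iff the symbols at `0` are distinguishable (the other terms are `≤ 1/4`). -/
def TaskOne : Prop := ∀ x y : Full, 1 ≤ dist x y ↔ dis (x 0) (y 0)

/-- Compactness (sequences in a finite alphabet; e.g. the identity from the product topology of
discrete spaces, `Function.compactSpace`, to `Full` is continuous, since agreement on `[-m, m]`
gives distance `≤ (1/4) ^ (m + 1)`). -/
def TaskCompact : Prop := CompactSpace Full

/-- Small distance: agreement on `[-m, m]`. -/
def TaskClose : Prop := (∀ (x y : Full) (m : ℕ), (∀ i : ℤ, i.natAbs ≤ m → x i = y i) →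
    dist x y ≤ (1 / 4 : ℝ) ^ (m + 1)) ∧
  ∀ (x y : Full) (m : ℕ), dist x y < (1 / 4 : ℝ) ^ m * (1 / 2) → ∀ i : ℤ, i.natAbs ≤ m → x i = y i

/-- `XX` is closed (from TaskClose: each window depends on finitely many coordinates). -/
def TaskClosed : Prop := IsClosed XX

/-- The shift is a homeomorphism of the subshift (both maps are Lipschitz with constant 4). -/
def TaskShift : Prop := Continuous shX ∧ Continuous shX' ∧ Function.LeftInverse shX' shX ∧
  Function.RightInverse shX' shX

/-- Every word of the language is the window at `0` of a point of the subshift.  The point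
`x₀ i = none` for `i < 0`, `x₀ i = (P k)[i]` for `0 ≤ i < |P k|`, is in `XX` (its windows are
infixes of `Z m ++ P k` and `P (j + 1)` ends with `Z (g j) ++ P j`-like parts, cf. the next task);
shift it. -/
def TaskExt : Prop := ∀ u : List Sym, Lang u → ∃ x : XX, win x.1 0 u.length = u

/-- The zero-extended words are in the language: for every `m`, `k` there is `j` with
`Z m ++ P k <:+: P j` (`P (j+1)` ends with `Z (g j) ++ P j`; `P k` is a prefix of `P j`). -/
def TaskZP : Prop := ∀ m k : ℕ, ∃ j, Z m ++ P k <:+: P j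

/-- The point `x₀`: from TaskGrow (prefixes) and TaskZP. -/
def TaskPoint : Prop := ∃ x : Full, x ∈ XX ∧ (∀ i : ℤ, i < 0 → x i = none) ∧
  ∀ k : ℕ, win x 0 (P k).length = P k

/-- Transitivity: the forward orbit of the point of TaskPoint is dense (each window `[-m, m]` of a
point of `XX` is an infix of some `P k`, so it is seen in `x₀` at a nonnegative place). -/
def TaskDense : Prop := ∃ x : XX, Dense (Set.range fun m : ℕ => shX^[m] x)

/-- `D_T` is a maximum (general; `Fin T` is finite and nonempty). -/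
def TaskDT : Prop := ∀ (X : Type) [MetricSpace X] (F : X → X) (ε : ℝ) (T : ℕ) (x y : X), 0 < T →
  ((ε ≤ DT F T x y ↔ ∃ t < T, ε ≤ dist (F^[t] x) (F^[t] y)) ∧
    (DT F T x y < ε ↔ ∀ t < T, dist (F^[t] x) (F^[t] y) < ε))

/-- Translation to words, for `ε = 1` (from TaskDT, TaskOne): the windows at `0` of length `T`. -/
def TaskTr : Prop := ∀ (T : ℕ) (x y : XX), 0 < T →
  (1 ≤ DT shX T x y ↔ LDis (win x.1 0 T) (win y.1 0 T))

/-- From TaskTr (`LDis u u` is false, so different points of `S` have different windows). -/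
def TaskSepList : Prop := ∀ (T : ℕ) (S : Finset XX), 0 < T → Separated shX 1 T S →
  ∃ S' : Finset (List Sym), S'.card = S.card ∧ (∀ u ∈ S', Lang u ∧ u.length = T) ∧
    ∀ u ∈ S', ∀ v ∈ S', u ≠ v → LDis u v

/-- From TaskTr and TaskExt. -/
def TaskSpanList : Prop := ∀ (T : ℕ) (S : Finset XX), 0 < T → Spanning shX 1 T S →
  ∃ S' : Finset (List Sym), S'.card ≤ S.card ∧ (∀ u ∈ S', Lang u ∧ u.length = T) ∧
    ∀ u, Lang u → u.length = T → ∃ s ∈ S', ¬ LDis s u

/-- Entropy bound (from TaskDT, TaskClose): if the windows of length `T + 2 m + 1` at `-m` agree, then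
`D_T < ε` for `(1/4) ^ (m + 1) < ε`; there are `11 ^ (T + 2 m + 1)` windows. -/
def TaskEnt : Prop := ∀ ε : ℝ, 0 < ε → ∃ K : ℕ, ∀ (T : ℕ) (S : Finset XX), 0 < T →
  Separated shX ε T S → S.card ≤ K * 11 ^ T

/-- General: a maximal separated set is spanning.  If all separated sets have at most `M` elements
then `1 ≤ span ≤ sep ≤ M` (for a nonempty space and `T > 0`; `sep` is attained). -/
def TaskGen : Prop := ∀ (X : Type) [MetricSpace X] [Nonempty X] (F : X → X) (ε : ℝ) (T M : ℕ),
  0 < T → 0 < ε → (∀ S : Finset X, Separated F ε T S → S.card ≤ M) →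
  1 ≤ span F ε T ∧ span F ε T ≤ sep F ε T ∧ sep F ε T ≤ M ∧
    (∃ S : Finset X, S.card = sep F ε T ∧ Separated F ε T S) ∧
    ∃ S : Finset X, S.card = span F ε T ∧ Spanning F ε T S

/-- Real analysis: `liminf ≤ log 2 < (log 5)/2 ≤ limsup` (adapt `Pool/Agent/Q41/OSC/TaskRate.lean`, there
`9, 84, 169` in place of `2, 5, 11`) -/
def TaskRate : Prop := ∀ (q G : ℕ → ℕ) (K : ℕ), StrictMono G → (∀ k, k + 2 ≤ G k) →
  (∀ T, 0 < T → 1 ≤ q T ∧ q T ≤ K * 11 ^ T) →
  (∀ k, q (G k) ≤ 8 * (G k + 1) * 2 ^ (G k)) →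
  (∀ k, 5 ^ (G k ^ 2) ≤ q (2 * G k ^ 2 + G k + 2)) →
  liminf (fun T : ℕ => Real.log (q T) / T) atTop < limsup (fun T : ℕ => Real.log (q T) / T) atTop

/-- Real analysis: finite entropy from the bound of TaskEnt. -/
def TaskLogBd : Prop := ∀ (q : ℕ → ℕ) (K : ℕ), (∀ T, 0 < T → q T ≤ K * 11 ^ T) →
  ∀ᶠ T : ℕ in atTop, Real.log (q T) / T ≤ Real.log 11 + 1

/-! ### new for Q2 -/

/-- The language is closed under infixes; the word of length `a + c` is determined by its first `a` and
last `c` symbols (`Set.ncard_prod`, injective map). -/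
def TaskMul : Prop := ∀ (b : Bool) (a c : ℕ), Wn b (a + c) ≤ Wn b a * Wn b c

/-- From TaskLangFam: at most `|P k| + 2 T + 1 ≤ 3 T + 1` infixes of length `T = g k` of
`Z T ++ P k ++ Z T`, and for each `p ≤ T` and `c` at most `(mb b) ^ (T - p)` images of words
`Z p ++ W c w`, and the same for `W c w ++ Z p`. -/
def TaskWnUp : Prop := ∀ (b : Bool) (k : ℕ), Wn b (g k) ≤ 8 * (g k + 1) * (mb b) ^ (g k)

/-- The words `W true w`, `w : Fin T → {1, 2, 3, 4}`, are in the language (`T ≤ n k` for some `k`) and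
distinguishable in pairs. -/
def TaskSepLow : Prop := ∀ T : ℕ, ∃ S : Finset (List Sym), (∀ u ∈ S, Lang u ∧ u.length = T) ∧
  (∀ u ∈ S, ∀ v ∈ S, u ≠ v → LDis u v) ∧ 4 ^ T ≤ S.card

/-- The words `W true w`, all `w`, are in the language. -/
def TaskWnLow : Prop := ∀ T : ℕ, 5 ^ T ≤ Wn false T

/-- Words with the same image under `ph true` are not distinguishable (`ph true x = ph true y` implies
`¬ dis x y`), so `u ↦ u.map (ph true)` is injective on `S`. -/
def TaskSepUp : Prop := ∀ (T : ℕ) (S : Finset (List Sym)), (∀ u ∈ S, Lang u ∧ u.length = T) →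
  (∀ u ∈ S, ∀ v ∈ S, u ≠ v → LDis u v) → S.card ≤ Wn true T

/-- From TaskLangFam: a set of words of length `T = g k` which represents all: the infixes of
`Z T ++ P k ++ Z T` (of the language), and for `p ≤ T` the words `Z p ++ W true [0,…,0]`,
`W true [0,…,0] ++ Z p`, `Z p ++ W false w`, `W false w ++ Z p` with `w` a word over `{0, 1}`
(a letter `v` in the phase `false` is represented by `0` if `v = 0` and by `1` if `v ≠ 0`). These words
are in the language (look at the blocks `blk` of level `k`; before each block there are `g k` zeros). -/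
def TaskSpanUp : Prop := ∀ k : ℕ, ∃ S : Finset (List Sym), (∀ u ∈ S, Lang u ∧ u.length = g k) ∧
  (∀ u, Lang u → u.length = g k → ∃ s ∈ S, ¬ LDis s u) ∧ S.card ≤ 8 * (g k + 1) * 2 ^ (g k)

/-- From TaskExt, TaskDT: for `δ ≤ 1/2` different windows give points at distance `≥ 1/2`. -/
def TaskSmallLow : Prop := ∀ (δ : ℝ) (T : ℕ), 0 < δ → δ ≤ 1 / 2 → 0 < T →
  ∃ S : Finset XX, S.card = Wn false T ∧ Separated shX δ T S

/-- From TaskClose, TaskDT (as TaskEnt): the windows of length `T + 2 m + 1` at `-m`. -/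
def TaskSmallUp : Prop := ∀ δ : ℝ, 0 < δ → ∃ j : ℕ, ∀ (T : ℕ) (S : Finset XX), 0 < T →
  Separated shX δ T S → S.card ≤ Wn false (T + j)

/-- From TaskDT: for `1/2 < δ ≤ 1`: `δ ≤ dist x y` iff the symbols at `0` are distinguishable iff
`1 ≤ dist x y` (the other terms are `≤ 1/4`). -/
def TaskMid : Prop := ∀ (δ : ℝ) (T : ℕ) (S : Finset XX), 1 / 2 < δ → δ ≤ 1 → 0 < T →
  (Separated shX δ T S ↔ Separated shX 1 T S)

/-- From TaskDT: all distances are `≤ 1`. -/
def TaskBig : Prop := ∀ (δ : ℝ) (T : ℕ) (S : Finset XX), 1 < δ → 0 < T → Separated shX δ T S →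
  S.card ≤ 1

/-- Spanning sets of words give spanning sets of points (from TaskTr, TaskExt), converse of
TaskSpanList. -/
def TaskSpanPts : Prop := ∀ (T : ℕ) (S : Finset (List Sym)), 0 < T →
  (∀ u ∈ S, Lang u ∧ u.length = T) → (∀ u, Lang u → u.length = T → ∃ s ∈ S, ¬ LDis s u) →
  ∃ S' : Finset XX, S'.card ≤ S.card ∧ Spanning shX 1 T S'

/-- Separated sets of words give separated sets of points (from TaskTr, TaskExt). -/
def TaskSepPts : Prop := ∀ (T : ℕ) (S : Finset (List Sym)), 0 < T →
  (∀ u ∈ S, Lang u ∧ u.length = T) → (∀ u ∈ S, ∀ v ∈ S, u ≠ v → LDis u v) →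
  ∃ S' : Finset XX, S'.card = S.card ∧ Separated shX 1 T S'

/-- Real analysis (Fekete): `w` is submultiplicative, so `limsup log w(T) / T ≤ log w(G k) / G k` for all
`k`, and this tends to at most `log m`. -/
def TaskLim : Prop := ∀ (q w G : ℕ → ℕ) (m j : ℕ), StrictMono G → (∀ k, k + 2 ≤ G k) → 2 ≤ m →
  (∀ a b, w (a + b) ≤ w a * w b) → (∀ k, w (G k) ≤ 8 * (G k + 1) * m ^ (G k)) →
  (∀ T, 0 < T → q T ≤ w (T + j)) → (∀ T, 0 < T → m ^ T ≤ q T) →
  Tendsto (fun T : ℕ => Real.log (q T) / T) atTop (𝓝 (Real.log m))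

end Pool.Agent.Q259.SPQ
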