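import Pool.Agent.Q259.SPQ.Stmts

set_option autoImplicit false

namespace Pool.Agent.Q259.SPQ.TaskBig

open Pool.Agent.Q259.SPQ

theorem dist_le_one (x y : XX) : dist x y ≤ 1 := by
  rw [Subtype.dist_eq, dist_def]
  exact ciSup_le fun m => term_le x.1 y.1 m

theorem main (hDT : Pool.Agent.Q259.SPQ.TaskDT) : Pool.Agent.Q259.SPQ.TaskBig := by
  intro δ T S hδ hT hS
  rw [Finset.card_le_one]
  intro a ha b hb
  by_contra hne
  obtain ⟨t, _, h⟩ := (hDT XX shX δ T a b hT).1.1 (hS a ha b hb hne)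
  linarith [dist_le_one (shX^[t] a) (shX^[t] b)]

end Pool.Agent.Q259.SPQ.TaskBig
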