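import Pool.Agent.Q259.SPQ.Stmts

set_option autoImplicit false

namespace Pool.Agent.Q259.SPQ.TaskDense

lemma win_get (x : Full) (a : ℤ) (m i : ℕ) (h : i < m) :
    (win x a m)[i]? = some (x (a + (i : ℕ))) := by
  unfold win
  rw [List.getElem?_ofFn, dif_pos h]

lemma win_length (x : Full) (a : ℤ) (m : ℕ) : (win x a m).length = m := by
  unfold win
  rw [List.length_ofFn]

lemma iter (x : XX) (t : ℕ) : ∀ i : ℤ, (shX^[t] x).1 i = x.1 (i + t) := by
  induction t with
  | zero => intro i; simp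
  | succ t ih =>
    intro i
    rw [Function.iterate_succ_apply']
    change (shX^[t] x).1 (i + 1) = _
    rw [ih]
    have e : i + 1 + (t : ℤ) = i + ((t + 1 : ℕ) : ℤ) := by
      push_cast
      ring
    rw [e]

theorem main (hP : TaskPoint) (hC : TaskClose) : Pool.Agent.Q259.SPQ.TaskDense := by
  obtain ⟨x, hxX, -, hwin⟩ := hP
  refine ⟨⟨x, hxX⟩, ?_⟩
  rw [Metric.dense_iff]
  intro y ε hε
  obtain ⟨m, hm⟩ := exists_pow_lt_of_lt_one hε (show (1 / 4 : ℝ) < 1 by norm_num)
  have hm' : (1 / 4 : ℝ) ^ (m + 1) < ε := by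
    refine lt_of_le_of_lt ?_ hm
    exact pow_le_pow_of_le_one (by norm_num) (by norm_num) (Nat.le_succ m)
  obtain ⟨k, s, t, hst⟩ := y.2 (-(m : ℤ)) (2 * m + 1)
  have hlen : (P k).length = s.length + (2 * m + 1) + t.length := by
    rw [← hst, List.length_append, List.length_append, win_length]
  have key : ∀ i < 2 * m + 1, x ((s.length : ℤ) + i) = y.1 (-(m : ℤ) + i) := by
    intro i hi
    have h1 : (P k)[s.length + i]? = some (y.1 (-(m : ℤ) + (i : ℕ))) := by
      rw [← hst, List.append_assoc, List.getElem?_append_right (Nat.le_add_right _ _),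
        Nat.add_sub_cancel_left, List.getElem?_append_left (by rw [win_length]; exact hi),
        win_get _ _ _ _ hi]
    have h2 : (win x 0 (P k).length)[s.length + i]? = some (x (0 + ((s.length + i : ℕ) : ℤ))) :=
      win_get _ _ _ _ (by omega)
    rw [hwin k, h1] at h2
    have h3 := Option.some.inj h2
    rw [h3]
    congr 1
    push_cast
    ring
  refine ⟨shX^[s.length + m] ⟨x, hxX⟩, ?_, ⟨s.length + m, rfl⟩⟩
  rw [Metric.mem_ball]
  refine lt_of_le_of_lt (hC.1 (shX^[s.length + m] ⟨x, hxX⟩).1 y.1 m ?_) hm'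
  intro i hi
  rw [iter]
  have h0 : (0 : ℤ) ≤ i + m := by omega
  obtain ⟨j, hj⟩ := Int.eq_ofNat_of_zero_le h0
  have hj2 : j < 2 * m + 1 := by omega
  have h4 := key j hj2
  have e1 : i + ((s.length + m : ℕ) : ℤ) = (s.length : ℤ) + j := by
    push_cast
    omega
  have e2 : -(m : ℤ) + j = i := by omega
  rw [e1, ← e2]
  exact h4

end Pool.Agent.Q259.SPQ.TaskDense
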