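import Pool.Agent.Q259.SPQ.Stmts

namespace Pool.Agent.Q259.SPQ.TaskGen
open Pool.Agent.Q259.SPQ Filter Topology

theorem main (h : Pool.Agent.Q259.SPQ.TaskDT) : Pool.Agent.Q259.SPQ.TaskGen := by
  classical
  intro X _ _ F ε T M hT hε hM
  have hself : ∀ x : X, ¬ ε ≤ DT F T x x := by
    intro x hx
    obtain ⟨t, -, h1⟩ := ((h X F ε T x x hT).1).1 hx
    rw [dist_self] at h1
    linarith
  have hsymm : ∀ x y : X, ε ≤ DT F T x y → ε ≤ DT F T y x := by
    intro x y hx
    obtain ⟨t, ht, h1⟩ := ((h X F ε T x y hT).1).1 hx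
    exact ((h X F ε T y x hT).1).2 ⟨t, ht, by rwa [dist_comm]⟩
  have hbdd : BddAbove {m : ℕ | ∃ S : Finset X, S.card = m ∧ Separated F ε T S} := by
    refine ⟨M, ?_⟩
    rintro m ⟨S, rfl, hS⟩
    exact hM S hS
  have hne : {m : ℕ | ∃ S : Finset X, S.card = m ∧ Separated F ε T S}.Nonempty :=
    ⟨0, ∅, rfl, by intro x hx; simp at hx⟩
  obtain ⟨S, hS, hsep⟩ := Nat.sSup_mem hne hbdd
  have hspan : Spanning F ε T S := by
    intro x
    by_contra hcon
    push Not at hcon
    have hx : x ∉ S := fun hx => hself x (hcon x hx)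
    have h1 : Separated F ε T (insert x S) := by
      intro a ha b hb hab
      rw [Finset.mem_insert] at ha hb
      rcases ha with rfl | ha <;> rcases hb with rfl | hb
      · exact absurd rfl hab
      · exact hsymm _ _ (hcon b hb)
      · exact hcon a ha
      · exact hsep a ha b hb hab
    have h2 : (insert x S).card ≤ sSup {m : ℕ | ∃ S : Finset X, S.card = m ∧ Separated F ε T S} :=
      le_csSup hbdd ⟨_, rfl, h1⟩
    rw [Finset.card_insert_of_notMem hx] at h2
    omega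
  have hspne : {m : ℕ | ∃ S : Finset X, S.card = m ∧ Spanning F ε T S}.Nonempty := ⟨_, S, rfl, hspan⟩
  obtain ⟨S', hS', hspan'⟩ := Nat.sInf_mem hspne
  refine ⟨?_, ?_, ?_, ⟨S, hS, hsep⟩, ⟨S', hS', hspan'⟩⟩
  · obtain ⟨x⟩ := (inferInstance : Nonempty X)
    obtain ⟨s, hs, -⟩ := hspan' x
    have h1 : 0 < S'.card := Finset.card_pos.2 ⟨s, hs⟩
    unfold span
    omega
  · unfold span sep
    rw [← hS]
    exact Nat.sInf_le ⟨S, rfl, hspan⟩
  · unfold sep
    rw [← hS]
    exact hM S hsep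

end Pool.Agent.Q259.SPQ.TaskGen
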