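import Pool.Agent.Q259.SPQ.Stmts

/-! The gluing lemma of the blueprint for MP_307271_an. -/

namespace Pool.Agent.Q259.SPQ.TaskGlue

open Pool.Agent.Q259.SPQ

/-- An infix of length at most `T ≤ g` of `A ++ Z g ++ C` lies in `A ++ Z T` or in `Z T ++ C` or is
a list of zeros. -/
theorem split {A C u : List Sym} {T g : ℕ} (hg : T ≤ g) (hu : u.length ≤ T)
    (h : u <:+: A ++ Z g ++ C) : u <:+: A ++ Z T ∨ u <:+: Z T ++ C ∨ u = Z u.length := by
  obtain ⟨s, t, hst⟩ := h
  have hlen : s.length + u.length + t.length = A.length + g + C.length := by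
    have := congrArg List.length hst
    simp only [List.length_append, Z, List.length_replicate] at this
    omega
  have e1 : A ++ Z g ++ C = (A ++ Z T) ++ (Z (g - T) ++ C) := by
    have : Z g = Z T ++ Z (g - T) := by
      unfold Z
      rw [List.replicate_append_replicate]
      congr 1
      omega
    rw [this]
    simp
  have e2 : A ++ Z g ++ C = (A ++ Z (g - T)) ++ (Z T ++ C) := by
    have : Z g = Z (g - T) ++ Z T := by
      unfold Z
      rw [List.replicate_append_replicate]
      congr 1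
      omega
    rw [this]
    simp
  by_cases h1 : s.length + u.length ≤ A.length + T
  · left
    have p1 : s ++ u <+: A ++ Z g ++ C := ⟨t, hst⟩
    have p2 : A ++ Z T <+: A ++ Z g ++ C := ⟨Z (g - T) ++ C, e1.symm⟩
    obtain ⟨r, hr⟩ := List.prefix_of_prefix_length_le p1 p2 (by simpa [Z] using h1)
    exact ⟨s, r, hr⟩
  · by_cases h2 : A.length + (g - T) ≤ s.length
    · right; left
      have p1 : u ++ t <:+ A ++ Z g ++ C := ⟨s, by rw [← hst]; simp⟩
      have p2 : Z T ++ C <:+ A ++ Z g ++ C := ⟨A ++ Z (g - T), e2.symm⟩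
      obtain ⟨r, hr⟩ := List.suffix_of_suffix_length_le p1 p2 (by simp [Z]; omega)
      exact ⟨r, t, by rw [← hr]; simp⟩
    · right; right
      have p1 : s ++ u <+: A ++ Z g ++ C := ⟨t, hst⟩
      have p2 : A ++ Z g <+: A ++ Z g ++ C := ⟨C, rfl⟩
      obtain ⟨r, hr⟩ := List.prefix_of_prefix_length_le p1 p2 (by simp [Z]; omega)
      have p3 : s <+: A ++ Z g := ⟨u ++ r, by rw [← hr]; simp⟩
      have p4 : A <+: A ++ Z g := ⟨Z g, rfl⟩
      obtain ⟨s', hs'⟩ := List.prefix_of_prefix_length_le p4 p3 (by omega)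
      have h3 : s' ++ (u ++ r) = Z g := by
        have h4 : A ++ (s' ++ (u ++ r)) = A ++ Z g := by
          rw [← List.append_assoc, hs', ← List.append_assoc, hr]
        exact List.append_cancel_left h4
      unfold Z
      rw [List.eq_replicate_iff]
      refine ⟨rfl, fun b hb => ?_⟩
      have h5 : b ∈ Z g := by
        rw [← h3]
        simp [hb]
      exact List.eq_of_mem_replicate h5

theorem main : TaskGlue := by
  intro T Q L₁ L₂ g hg h1 h2 u hu hlen
  have e : Z T ++ (L₁ ++ Z g ++ L₂) ++ Z T = (Z T ++ L₁) ++ Z g ++ (L₂ ++ Z T) := by simp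
  rw [e] at hu
  rcases split hg hlen hu with h | h | h
  · exact h1 u h hlen
  · exact h2 u (by rwa [← List.append_assoc] at h) hlen
  · exact Or.inr ⟨true, u.length, [], Or.inl (by rw [h]; simp [W, Z])⟩

end Pool.Agent.Q259.SPQ.TaskGlue
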