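import Pool.Agent.Q259.SPQ.Stmts

set_option autoImplicit false

namespace Pool.Agent.Q259.SPQ.TaskGrow
open Pool.Agent.Q259.SPQ

theorem lt_succ (k : ℕ) : g k < g (k + 1) := by
  have h : (P (k + 1)).length = (step (P k)).length := rfl
  unfold g
  rw [h]
  unfold step
  simp only [List.length_append, Z, List.length_replicate]
  omega

theorem pre_succ (k : ℕ) : P k <+: P (k + 1) := by
  have h : P (k + 1) = step (P k) := rfl
  rw [h]
  unfold step
  rw [List.append_assoc, List.append_assoc]
  exact List.prefix_append _ _

theorem main : TaskGrow := by
  refine ⟨strictMono_nat_of_lt_succ lt_succ, ?_, ?_⟩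
  · intro k
    induction k with
    | zero => simp [g, P]
    | succ k ih => have := lt_succ k; omega
  · intro j k hjk
    induction k, hjk using Nat.le_induction with
    | base => exact List.prefix_refl _
    | succ k _ ih => exact ih.trans (pre_succ k)

end Pool.Agent.Q259.SPQ.TaskGrow
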