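import Mathlib
import Pool.Agent.Q259.SPQ.Stmts

set_option autoImplicit false

namespace Pool.Agent.Q259.SPQ.TaskLangFam

open Pool.Agent.Q259.SPQ

theorem main (hG : Pool.Agent.Q259.SPQ.TaskGoodP) (hGr : Pool.Agent.Q259.SPQ.TaskGrow) :
    Pool.Agent.Q259.SPQ.TaskLangFam := by
  intro k u hu hlen
  obtain ⟨j, hj⟩ := hu
  have h1 : P j <+: P (max j k) := hGr.2.2 j (max j k) (le_max_left _ _)
  have h2 : u <:+: P (max j k) := hj.trans h1.isInfix
  refine hG k (max j k) (le_max_right _ _) u (h2.trans ?_) hlen.le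
  exact ⟨Z (g k), Z (g k), rfl⟩

end Pool.Agent.Q259.SPQ.TaskLangFam
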