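import Pool.Agent.Q259.SPQ.Stmts

set_option autoImplicit false

open Filter Topology Asymptotics

namespace Pool.Agent.Q259.SPQ.TaskLim

open Pool.Agent.Q259.SPQ

theorem main : Pool.Agent.Q259.SPQ.TaskLim := by
  intro q w G m j hG hGk hm hsub hw hq hlow
  have hGt : Tendsto G atTop atTop := hG.tendsto_atTop
  have hm' : (2 : ℝ) ≤ m := by exact_mod_cast hm
  have hlm : 0 ≤ Real.log m := Real.log_nonneg (by linarith)
  rw [Metric.tendsto_atTop]
  intro ε hε
  -- the choice of `k`
  obtain ⟨k, hk⟩ : ∃ k, Real.log (8 * ((G k : ℝ) + 1)) ≤ ε / 3 * G k := by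
    have hc : Tendsto (fun k => 8 * ((G k : ℝ) + 1)) atTop atTop :=
      (tendsto_atTop_add_const_right _ _ (tendsto_natCast_atTop_atTop.comp hGt)).const_mul_atTop
        (by norm_num)
    have hl := hc.eventually
      (Real.isLittleO_log_id_atTop.def (show (0 : ℝ) < ε / 3 / 16 by positivity))
    obtain ⟨k, hk⟩ := hl.exists
    refine ⟨k, ?_⟩
    have hg : (2 : ℝ) ≤ G k := by exact_mod_cast (by have := hGk k; omega : 2 ≤ G k)
    simp only [id] at hk
    rw [Real.norm_eq_abs, Real.norm_eq_abs,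
      abs_of_nonneg (show (0 : ℝ) ≤ 8 * ((G k : ℝ) + 1) by positivity)] at hk
    have h4 := (le_abs_self _).trans hk
    nlinarith
  obtain ⟨g, hgdef⟩ : ∃ g, g = G k := ⟨_, rfl⟩
  rw [← hgdef] at hk
  have hg2 : 2 ≤ g := by rw [hgdef]; have := hGk k; omega
  have hgR : (2 : ℝ) ≤ g := by exact_mod_cast hg2
  obtain ⟨l, hl⟩ : ∃ l, l = Real.log m + ε / 3 := ⟨_, rfl⟩
  have hl0 : 0 < l := by rw [hl]; linarith
  have h1 : (w g : ℝ) ≤ Real.exp (g * l) := by
    have h := hw k
    rw [← hgdef] at h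
    have h' : (w g : ℝ) ≤ 8 * ((g : ℝ) + 1) * (m : ℝ) ^ g := by exact_mod_cast h
    refine h'.trans ?_
    have e1 : (8 * ((g : ℝ) + 1)) = Real.exp (Real.log (8 * ((g : ℝ) + 1))) :=
      (Real.exp_log (by positivity)).symm
    have e2 : ((m : ℝ) ^ g) = Real.exp (g * Real.log m) := by
      rw [mul_comm, Real.exp_mul, Real.exp_log (by linarith), Real.rpow_natCast]
    rw [e1, e2, ← Real.exp_add]
    apply Real.exp_le_exp.2
    rw [hl]
    linarith [hk, mul_comm (g : ℝ) (ε / 3), mul_add (g : ℝ) (Real.log m) (ε / 3)]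
  have h2 : ∀ a r : ℕ, (w (a * g + r) : ℝ) ≤ Real.exp (g * l) ^ a * w r := by
    intro a r
    induction a with
    | zero => simp
    | succ a ih =>
      have e : (a + 1) * g + r = g + (a * g + r) := by ring
      rw [e, pow_succ']
      have h := hsub g (a * g + r)
      have h' : (w (g + (a * g + r)) : ℝ) ≤ (w g : ℝ) * w (a * g + r) := by exact_mod_cast h
      refine h'.trans ?_
      rw [mul_assoc]
      exact mul_le_mul h1 ih (Nat.cast_nonneg _) (Real.exp_pos _).le
  obtain ⟨C, hC⟩ : ∃ C : ℝ, C = (∑ r ∈ Finset.range g, (w r : ℝ)) + 1 := ⟨_, rfl⟩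
  have hC1 : 1 ≤ C := by
    rw [hC]
    have : 0 ≤ ∑ r ∈ Finset.range g, (w r : ℝ) := Finset.sum_nonneg fun _ _ => Nat.cast_nonneg _
    linarith
  have h3 : ∀ r, r < g → (w r : ℝ) ≤ C := by
    intro r hr
    rw [hC]
    have := Finset.single_le_sum (f := fun r => (w r : ℝ)) (fun _ _ => Nat.cast_nonneg _)
      (Finset.mem_range.2 hr)
    linarith
  have h4 : ∀ n : ℕ, (w n : ℝ) ≤ Real.exp (n * l) * C := by
    intro n
    have hn : n / g * g + n % g = n := Nat.div_add_mod' n g
    have h := h2 (n / g) (n % g)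
    rw [hn] at h
    refine h.trans (mul_le_mul ?_ (h3 _ (Nat.mod_lt _ (by omega))) (Nat.cast_nonneg _)
      (Real.exp_pos _).le)
    rw [← Real.exp_nat_mul]
    apply Real.exp_le_exp.2
    have h5 : ((n / g : ℕ) : ℝ) * g ≤ n := by
      have : n / g * g ≤ n := Nat.div_mul_le_self n g
      exact_mod_cast this
    nlinarith
  obtain ⟨N, hN⟩ := exists_nat_gt ((j * l + Real.log C) / (ε / 3))
  refine ⟨N + 1, fun T hT => ?_⟩
  have hT0 : 0 < T := by omega
  have hTR : (1 : ℝ) ≤ T := by exact_mod_cast hT0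
  have hlo : Real.log m ≤ Real.log (q T) / T := by
    rw [le_div_iff₀ (by linarith)]
    have h : ((m : ℝ) ^ T) ≤ q T := by exact_mod_cast hlow T hT0
    have h' := Real.log_le_log (by positivity) h
    rw [Real.log_pow] at h'
    linarith
  have hqpos : (0 : ℝ) < q T := by
    have h : ((m : ℝ) ^ T) ≤ q T := by exact_mod_cast hlow T hT0
    have : (0 : ℝ) < (m : ℝ) ^ T := by positivity
    linarith
  have hup : Real.log (q T) / T < Real.log m + ε := by
    rw [div_lt_iff₀ (by linarith)]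
    have h : (q T : ℝ) ≤ Real.exp (((T + j : ℕ) : ℝ) * l) * C := by
      have h5 : (q T : ℝ) ≤ w (T + j) := by exact_mod_cast hq T hT0
      exact h5.trans (h4 _)
    have h' := Real.log_le_log hqpos h
    rw [Real.log_mul (Real.exp_pos _).ne' (by linarith), Real.log_exp] at h'
    push_cast at h'
    have h6 : j * l + Real.log C < ε / 3 * T := by
      rw [div_lt_iff₀ (by positivity)] at hN
      have h7 : (N : ℝ) ≤ T := by exact_mod_cast (by omega : N ≤ T)
      nlinarith
    have h8 : l = Real.log m + ε / 3 := hl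
    nlinarith
  rw [Real.dist_eq, abs_lt]
  constructor
  · linarith
  · linarith

end Pool.Agent.Q259.SPQ.TaskLim
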