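import Pool.Agent.Q259.SPQ.Stmts

/-! MP_307271_an, Q2: task Mid. -/

namespace Pool.Agent.Q259.SPQ.TaskMid
open Filter Topology

theorem dist_mid (x y : Full) (δ : ℝ) (h1 : 1 / 2 < δ) (h2 : δ ≤ 1) :
    δ ≤ dist x y ↔ 1 ≤ dist x y := by
  constructor
  · intro h
    by_contra hlt
    have h0 : d (x 0) (y 0) ≤ 1 / 2 := by
      by_contra hd
      have hd1 : d (x 0) (y 0) = 1 := by
        unfold d at hd ⊢
        split_ifs at hd ⊢
        · exact absurd (by norm_num) hd
        · rfl
        · exact absurd le_rfl hd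
      apply hlt
      have := le_DD x y 0
      rw [hd1] at this
      rw [dist_def]
      simpa using this
    have h3 : dist x y ≤ 1 / 2 := by
      rw [dist_def]
      refine ciSup_le fun m => ?_
      by_cases hm : m = 0
      · subst hm
        simpa using h0
      · have h4 : (1 / 4 : ℝ) ^ m.natAbs ≤ 1 / 4 := by
          calc (1 / 4 : ℝ) ^ m.natAbs ≤ (1 / 4) ^ 1 :=
                pow_le_pow_of_le_one (by norm_num) (by norm_num)
                  (Nat.one_le_iff_ne_zero.mpr (Int.natAbs_ne_zero.mpr hm))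
            _ = 1 / 4 := by norm_num
        have hd := d_le (x m) (y m)
        have hd0 := d_nonneg (x m) (y m)
        have h5 : (0 : ℝ) ≤ (1 / 4 : ℝ) ^ m.natAbs := by positivity
        nlinarith
    linarith
  · intro h
    linarith

theorem main (h : TaskDT) : TaskMid := by
  intro δ T S h1 h2 hT
  have key : ∀ x y : XX, δ ≤ DT shX T x y ↔ 1 ≤ DT shX T x y := by
    intro x y
    rw [(h XX shX δ T x y hT).1, (h XX shX 1 T x y hT).1]
    constructor
    · rintro ⟨t, ht, hd⟩
      exact ⟨t, ht, (dist_mid _ _ δ h1 h2).mp hd⟩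
    · rintro ⟨t, ht, hd⟩
      exact ⟨t, ht, (dist_mid _ _ δ h1 h2).mpr hd⟩
  unfold Separated
  simp only [key]

end Pool.Agent.Q259.SPQ.TaskMid
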