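import Pool.Agent.Q259.SPQ.Stmts

/-! MP_307271_an, Q2, blueprint of helper259: the number of words is submultiplicative. -/

set_option autoImplicit false

namespace Pool.Agent.Q259.SPQ.TaskMul

open Pool.Agent.Q259.SPQ

/-- the numbers of words are submultiplicative -/
theorem main : Pool.Agent.Q259.SPQ.TaskMul := by
  intro b a c
  unfold Wn
  rw [← Set.ncard_prod]
  have hfin : ∀ T : ℕ, ((fun u : List Sym => u.map (ph b)) '' {u | Lang u ∧ u.length = T}).Finite :=
    fun T => ((List.finite_length_eq Sym T).subset fun u hu => hu.2).image _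
  refine Set.ncard_le_ncard_of_injOn (fun w : List Sym => (w.take a, w.drop a)) ?_ ?_
    ((hfin a).prod (hfin c))
  · rintro _ ⟨u, ⟨⟨k, hk⟩, hlen⟩, rfl⟩
    refine Set.mem_prod.2 ⟨⟨u.take a, ⟨⟨k, ?_⟩, ?_⟩, ?_⟩, ⟨u.drop a, ⟨⟨k, ?_⟩, ?_⟩, ?_⟩⟩
    · exact (List.take_prefix a u).isInfix.trans hk
    · rw [List.length_take, hlen]; omega
    · simp [List.map_take]
    · exact (List.drop_suffix a u).isInfix.trans hk
    · rw [List.length_drop, hlen]; omega
    · simp [List.map_drop]
  · intro x _ y _ hxy
    have h1 : x.take a = y.take a := congrArg Prod.fst hxy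
    have h2 : x.drop a = y.drop a := congrArg Prod.snd hxy
    rw [← List.take_append_drop a x, h1, h2, List.take_append_drop]

end Pool.Agent.Q259.SPQ.TaskMul
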