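import Pool.Agent.Q259.SPQ.Stmts

set_option autoImplicit false

namespace Pool.Agent.Q259.SPQ.TaskOne

open Pool.Agent.Q259.SPQ

theorem dis_irrefl (a : Sym) : ¬ dis a a := by
  rcases a with _ | ⟨u, c⟩
  · exact id
  · intro h
    rcases h with h | h
    · exact h rfl
    · exact h (Or.inl rfl)

theorem main : Pool.Agent.Q259.SPQ.TaskOne := by
  intro x y
  rw [dist_def]
  constructor
  · intro h
    by_contra hd
    have h2 : DD x y ≤ 1 / 2 := by
      refine ciSup_le fun m => ?_
      by_cases hm : m = 0
      · subst hm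
        have h3 : d (x 0) (y 0) ≤ 1 / 2 := by
          unfold d
          split_ifs
          · norm_num
          · norm_num
        simpa using h3
      · have h4 : (1 / 4 : ℝ) ^ m.natAbs ≤ 1 / 4 := by
          have h5 : 1 ≤ m.natAbs := Int.natAbs_pos.2 hm
          calc (1 / 4 : ℝ) ^ m.natAbs ≤ (1 / 4 : ℝ) ^ 1 :=
                pow_le_pow_of_le_one (by norm_num) (by norm_num) h5
            _ = 1 / 4 := pow_one _
        have h6 : (0 : ℝ) ≤ (1 / 4 : ℝ) ^ m.natAbs := by positivity
        nlinarith [d_nonneg (x m) (y m), d_le (x m) (y m)]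
    linarith
  · intro h
    have h1 := le_DD x y 0
    have h2 : d (x 0) (y 0) = 1 := by
      unfold d
      rw [if_neg (fun h' => dis_irrefl (x 0) (by rw [← h'] at h; exact h)), if_pos h]
    rw [h2] at h1
    simpa using h1

end Pool.Agent.Q259.SPQ.TaskOne
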