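import Pool.Agent.Q259.SPQ.Stmts

set_option autoImplicit false

open Filter Topology Asymptotics

namespace Pool.Agent.Q259.SPQ.TaskRate

open Pool.Agent.Q259.SPQ

theorem main : Pool.Agent.Q259.SPQ.TaskRate := by
  intro q G K hG hGk hq h1 h2
  have hK : 1 ≤ K := by
    have h := hq 1 one_pos
    rcases Nat.eq_zero_or_pos K with h0 | h0
    · subst h0
      simp at h
      omega
    · exact h0
  have hGt : Tendsto G atTop atTop := hG.tendsto_atTop
  have hlog : Real.log 2 < Real.log 5 / 2 := by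
    have ha : Real.log 4 = 2 * Real.log 2 := by
      rw [show (4 : ℝ) = 2 ^ 2 by norm_num, Real.log_pow]; push_cast; ring
    have hb := Real.log_lt_log (by norm_num : (0 : ℝ) < 4) (by norm_num : (4 : ℝ) < 5)
    linarith
  obtain ⟨δ, hδdef⟩ : ∃ δ, δ = (Real.log 5 / 2 - Real.log 2) / 3 := ⟨_, rfl⟩
  have hδ : 0 < δ := by rw [hδdef]; linarith
  have hbelow : IsBoundedUnder (· ≥ ·) atTop (fun T : ℕ => Real.log (q T) / T) := by
    refine ⟨0, ?_⟩
    rw [eventually_map]
    filter_upwards [eventually_gt_atTop 0] with T hT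
    have h := (hq T hT).1
    exact div_nonneg (Real.log_nonneg (by exact_mod_cast h)) (Nat.cast_nonneg _)
  have habove : IsBoundedUnder (· ≤ ·) atTop (fun T : ℕ => Real.log (q T) / T) := by
    refine ⟨Real.log K + Real.log 11, ?_⟩
    rw [eventually_map]
    filter_upwards [eventually_gt_atTop 0] with T hT
    have h := hq T hT
    have hT' : (1 : ℝ) ≤ T := by exact_mod_cast hT
    have hK' : (1 : ℝ) ≤ K := by exact_mod_cast hK
    have hq1 : (1 : ℝ) ≤ q T := by exact_mod_cast h.1
    have hq2 : (q T : ℝ) ≤ K * 11 ^ T := by exact_mod_cast h.2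
    rw [div_le_iff₀ (by linarith)]
    have h3 : Real.log (q T) ≤ Real.log (K * 11 ^ T) := Real.log_le_log (by linarith) hq2
    rw [Real.log_mul (by linarith) (by positivity), Real.log_pow] at h3
    have h4 : 0 ≤ Real.log K := Real.log_nonneg hK'
    nlinarith
  have hlow : ∃ᶠ T : ℕ in atTop, Real.log (q T) / T ≤ Real.log 2 + δ := by
    refine hGt.frequently (Eventually.frequently ?_)
    have hc : Tendsto (fun k => 8 * ((G k : ℝ) + 1)) atTop atTop :=
      (tendsto_atTop_add_const_right _ _ (tendsto_natCast_atTop_atTop.comp hGt)).const_mul_atTop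
        (by norm_num)
    have hl := hc.eventually (Real.isLittleO_log_id_atTop.def (show (0 : ℝ) < δ / 16 by positivity))
    filter_upwards [hl] with k hk
    have hg : (2 : ℝ) ≤ G k := by exact_mod_cast (by have := hGk k; omega : 2 ≤ G k)
    have hq1 : (1 : ℝ) ≤ q (G k) := by
      exact_mod_cast (hq (G k) (by have := hGk k; omega)).1
    have hq2 : (q (G k) : ℝ) ≤ 8 * ((G k : ℝ) + 1) * 2 ^ (G k) := by exact_mod_cast h1 k
    rw [div_le_iff₀ (by linarith)]
    have h3 : Real.log (q (G k)) ≤ Real.log (8 * ((G k : ℝ) + 1) * 2 ^ (G k)) :=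
      Real.log_le_log (by linarith) hq2
    rw [Real.log_mul (by positivity) (by positivity), Real.log_pow] at h3
    simp only [id] at hk
    rw [Real.norm_eq_abs, Real.norm_eq_abs,
      abs_of_nonneg (show (0 : ℝ) ≤ 8 * ((G k : ℝ) + 1) by positivity)] at hk
    have h4 := (le_abs_self _).trans hk
    nlinarith
  have hup : ∃ᶠ T : ℕ in atTop, Real.log 5 / 2 - δ ≤ Real.log (q T) / T := by
    have ht : Tendsto (fun k => 2 * G k ^ 2 + G k + 2) atTop atTop := by
      refine tendsto_atTop_mono (fun k => ?_) tendsto_id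
      have := hGk k
      simp only [id]
      nlinarith [Nat.zero_le (G k ^ 2)]
    refine ht.frequently (Eventually.frequently ?_)
    have hc : ∀ᶠ k in atTop, Real.log 5 / (2 * δ) ≤ (G k : ℝ) :=
      (tendsto_natCast_atTop_atTop.comp hGt).eventually_ge_atTop _
    filter_upwards [hc] with k hk
    have hg : (2 : ℝ) ≤ G k := by exact_mod_cast (by have := hGk k; omega : 2 ≤ G k)
    have hq2 : (5 : ℝ) ^ (G k ^ 2) ≤ q (2 * G k ^ 2 + G k + 2) := by exact_mod_cast h2 k
    have h3 : Real.log ((5 : ℝ) ^ (G k ^ 2)) ≤ Real.log (q (2 * G k ^ 2 + G k + 2)) :=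
      Real.log_le_log (by positivity) hq2
    rw [Real.log_pow] at h3
    push_cast at h3 ⊢
    rw [le_div_iff₀ (by positivity)]
    refine le_trans ?_ h3
    rw [div_le_iff₀ (by positivity)] at hk
    have hL : 0 < Real.log 5 := Real.log_pos (by norm_num)
    have h5 : Real.log 5 / 2 * ((G k : ℝ) + 2) ≤ δ * (G k : ℝ) * ((G k : ℝ) + 2) := by
      refine mul_le_mul_of_nonneg_right ?_ (by positivity)
      nlinarith
    have h6 : δ * (G k : ℝ) * ((G k : ℝ) + 2) ≤ δ * (2 * (G k : ℝ) ^ 2 + G k + 2) := by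
      rw [mul_assoc]
      refine mul_le_mul_of_nonneg_left ?_ hδ.le
      nlinarith
    nlinarith
  have ha := liminf_le_of_frequently_le hlow hbelow
  have hb := le_limsup_of_frequently_le hup habove
  have hc : Real.log 2 + δ < Real.log 5 / 2 - δ := by rw [hδdef]; linarith
  exact lt_of_le_of_lt ha (lt_of_lt_of_le hc hb)

end Pool.Agent.Q259.SPQ.TaskRate
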