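import Pool.Agent.Q259.SPQ.Stmts

/-! MP_307271_an Q2, crowd lemma SPQ.TaskSepLow (helper37): `4 ^ T` words in the phase `true`. -/

namespace Pool.Agent.Q259.SPQ.TaskSepLow

open Pool.Agent.Q259.SPQ

/-- the word of `f` -/
def wd {T : ℕ} (f : Fin T → Fin 4) : List Sym :=
  List.ofFn fun i => (some ((f i).succ, true) : Sym)

theorem wd_eq {T : ℕ} (f : Fin T → Fin 4) :
    wd f = W true (List.ofFn fun i => ((f i).succ : V)) := by
  unfold wd W
  rw [List.map_ofFn]
  rfl

theorem length_wd {T : ℕ} (f : Fin T → Fin 4) : (wd f).length = T := by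
  simp [wd]

theorem mem_words (m : ℕ) (w : List V) (h : w.length = m) : w ∈ words m := by
  subst h
  unfold words
  rw [List.mem_map]
  refine ⟨fun i => w.get i, by simp, ?_⟩
  simp

theorem infix_P (k : ℕ) (w : List V) (h : w.length = n k) : W true w <:+: P (k + 1) := by
  have h1 : W true w <:+: blk (g k) w := by
    unfold blk
    rw [List.append_assoc, List.append_assoc]
    exact (List.prefix_append _ _).isInfix
  have h2 : blk (g k) w <:+: (words (n k)).flatMap (blk (g k)) := by
    obtain ⟨s, t, hst⟩ := List.append_of_mem (mem_words (n k) w h)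
    rw [hst]
    refine ⟨s.flatMap (blk (g k)), t.flatMap (blk (g k)), ?_⟩
    simp [List.flatMap_append, List.flatMap_cons]
  have h3 : (words (n k)).flatMap (blk (g k)) <:+: P (k + 1) := by
    show _ <:+: step (P k)
    unfold step
    exact ⟨P k ++ Z ((P k).length + 1), P k, rfl⟩
  exact (h1.trans h2).trans h3

theorem lang_wd (hg : TaskGrow) {T : ℕ} (f : Fin T → Fin 4) : Lang (wd f) := by
  refine ⟨T + 1, ?_⟩
  have hT : T ≤ n T := by
    have h1 := hg.2.1 T
    unfold n
    nlinarith
  have hlen : ((List.ofFn fun i => ((f i).succ : V)) ++ List.replicate (n T - T) (0 : V)).length =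
      n T := by
    simp
    omega
  have h := infix_P T _ hlen
  refine List.IsInfix.trans ?_ h
  rw [wd_eq]
  unfold W
  rw [List.map_append]
  exact (List.prefix_append _ _).isInfix

theorem ldis_wd {T : ℕ} (f f' : Fin T → Fin 4) (h : f ≠ f') : LDis (wd f) (wd f') := by
  obtain ⟨i, hi⟩ := Function.ne_iff.1 h
  refine ⟨i, some ((f i).succ, true), some ((f' i).succ, true), ?_, ?_, ?_⟩
  · simp [wd, List.getElem?_ofFn]
  · simp [wd, List.getElem?_ofFn]
  · refine Or.inr ?_
    intro hnd
    rcases hnd with h1 | ⟨-, h1 | h1⟩ | ⟨h1, -⟩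
    · exact hi (Fin.succ_injective _ h1)
    · exact Fin.succ_ne_zero _ h1
    · exact Fin.succ_ne_zero _ h1
    · exact absurd h1 (by decide)

theorem not_dis_self (a : Sym) : ¬ dis a a := by
  rcases a with _ | ⟨u, c⟩
  · simp [dis]
  · simp [dis, nd]

theorem wd_injective {T : ℕ} : Function.Injective (wd (T := T)) := by
  intro f f' h
  by_contra hne
  obtain ⟨i, a, b, ha, hb, hd⟩ := ldis_wd f f' hne
  rw [h, hb] at ha
  have hab : b = a := Option.some.inj ha
  subst hab
  exact not_dis_self _ hd

theorem main (hg : TaskGrow) : TaskSepLow := by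
  intro T
  refine ⟨Finset.univ.image (wd (T := T)), ?_, ?_, ?_⟩
  · intro u hu
    obtain ⟨f, -, rfl⟩ := Finset.mem_image.1 hu
    exact ⟨lang_wd hg f, length_wd f⟩
  · intro u hu v hv huv
    obtain ⟨f, -, rfl⟩ := Finset.mem_image.1 hu
    obtain ⟨f', -, rfl⟩ := Finset.mem_image.1 hv
    exact ldis_wd f f' fun h => huv (by rw [h])
  · rw [Finset.card_image_of_injective _ wd_injective]
    simp

end Pool.Agent.Q259.SPQ.TaskSepLow
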