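import Pool.Agent.Q259.SPQ.Stmts

namespace Pool.Agent.Q259.SPQ.TaskSepPts

open Pool.Agent.Q259.SPQ

theorem main (hTr : TaskTr) (hExt : TaskExt) : Pool.Agent.Q259.SPQ.TaskSepPts := by
  classical
  intro T S hT h1 h2
  have hch : ∀ u : List Sym, ∃ x : XX, u ∈ S → win x.1 0 T = u := by
    intro u
    by_cases hu : u ∈ S
    · obtain ⟨x, hx⟩ := hExt u (h1 u hu).1
      rw [(h1 u hu).2] at hx
      exact ⟨x, fun _ => hx⟩
    · by_cases hne : Nonempty XX
      · exact ⟨hne.some, fun h => (hu h).elim⟩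
      · exfalso
        apply hne
        by_cases hS : S.Nonempty
        · obtain ⟨v, hv⟩ := hS
          obtain ⟨x, -⟩ := hExt v (h1 v hv).1
          exact ⟨x⟩
        · have h3 : Lang [] := ⟨0, List.nil_infix⟩
          obtain ⟨x, -⟩ := hExt [] h3
          exact ⟨x⟩
  choose g hg using hch
  refine ⟨S.image g, Finset.card_image_of_injOn ?_, ?_⟩
  · intro u hu v hv huv
    have hu' : u ∈ S := hu
    have hv' : v ∈ S := hv
    rw [← hg u hu', ← hg v hv', huv]
  · intro x hx y hy hxy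
    obtain ⟨u, hu, rfl⟩ := Finset.mem_image.1 hx
    obtain ⟨v, hv, rfl⟩ := Finset.mem_image.1 hy
    rw [hTr T (g u) (g v) hT, hg u hu, hg v hv]
    exact h2 u hu v hv fun e => hxy (by rw [e])

end Pool.Agent.Q259.SPQ.TaskSepPts
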