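import Pool.Agent.Q259.SPQ.Stmts

set_option autoImplicit false

namespace Pool.Agent.Q259.SPQ.TaskSepUp
open Pool.Agent.Q259.SPQ

theorem some_case : ∀ (u v : V) (c c' : Bool), ph true (some (u, c)) = ph true (some (v, c')) →
    ¬ (c ≠ c' ∨ ¬ nd c u v) := by
  decide

theorem none_case : ∀ (v : V) (c : Bool), ph true (some (v, c)) ≠ none := by
  decide

theorem not_dis (a b : Sym) (h : ph true a = ph true b) : ¬ dis a b := by
  rcases a with _ | ⟨u, c⟩ <;> rcases b with _ | ⟨v, c'⟩
  · simp [dis]
  · exact absurd h.symm (none_case v c')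
  · exact absurd h (none_case u c)
  · exact some_case u v c c' h

theorem main : Pool.Agent.Q259.SPQ.TaskSepUp := by
  classical
  intro T S hS hd
  have hinj : Set.InjOn (fun u : List Sym => u.map (ph true)) (S : Set (List Sym)) := by
    intro u hu v hv huv
    by_contra hne
    obtain ⟨i, a, b, ha, hb, hab⟩ := hd u hu v hv hne
    have huv' : u.map (ph true) = v.map (ph true) := huv
    have h1 : (u.map (ph true))[i]? = (v.map (ph true))[i]? := by rw [huv']
    rw [List.getElem?_map, List.getElem?_map, ha, hb] at h1
    simp only [Option.map_some, Option.some.injEq] at h1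
    exact not_dis a b h1 hab
  have hfin : ((fun u : List Sym => u.map (ph true)) '' {u | Lang u ∧ u.length = T}).Finite := by
    refine Set.Finite.image _ ?_
    exact (List.finite_length_eq Sym T).subset fun u hu => hu.2
  have hsub : (fun u : List Sym => u.map (ph true)) '' (S : Set (List Sym)) ⊆
      (fun u : List Sym => u.map (ph true)) '' {u | Lang u ∧ u.length = T} :=
    Set.image_mono fun u hu => hS u hu
  calc S.card = (S : Set (List Sym)).ncard := (Set.ncard_coe_finset S).symm
    _ = ((fun u : List Sym => u.map (ph true)) '' (S : Set (List Sym))).ncard :=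
        hinj.ncard_image.symm
    _ ≤ Wn true T := Set.ncard_le_ncard hsub hfin

end Pool.Agent.Q259.SPQ.TaskSepUp
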