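import Pool.Agent.Q259.SPQ.Stmts

namespace Pool.Agent.Q259.SPQ.TaskShift
open Pool.Agent.Q259.SPQ

theorem lip (k : ℤ) (hk : k.natAbs = 1) (x y x' y' : Full) (hx : ∀ m, x' m = x (m + k))
    (hy : ∀ m, y' m = y (m + k)) : DD x' y' ≤ 4 * DD x y := by
  show (⨆ m : ℤ, (1 / 4 : ℝ) ^ m.natAbs * d (x' m) (y' m)) ≤ 4 * DD x y
  refine ciSup_le fun m => ?_
  rw [hx, hy]
  have h1 := le_DD x y (m + k)
  have h2 : (1 / 4 : ℝ) ^ m.natAbs ≤ 4 * (1 / 4 : ℝ) ^ (m + k).natAbs := by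
    have h : (m + k).natAbs ≤ m.natAbs + 1 := by omega
    have h' : (1 / 4 : ℝ) ^ (m.natAbs + 1) ≤ (1 / 4 : ℝ) ^ (m + k).natAbs :=
      pow_le_pow_of_le_one (by norm_num) (by norm_num) h
    rw [pow_succ] at h'
    linarith
  have h3 := d_nonneg (x (m + k)) (y (m + k))
  calc (1 / 4 : ℝ) ^ m.natAbs * d (x (m + k)) (y (m + k))
      ≤ (4 * (1 / 4 : ℝ) ^ (m + k).natAbs) * d (x (m + k)) (y (m + k)) :=
        mul_le_mul_of_nonneg_right h2 h3
    _ = 4 * ((1 / 4 : ℝ) ^ (m + k).natAbs * d (x (m + k)) (y (m + k))) := by ring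
    _ ≤ 4 * DD x y := by linarith

theorem main : Pool.Agent.Q259.SPQ.TaskShift := by
  refine ⟨?_, ?_, ?_, ?_⟩
  · refine (LipschitzWith.of_dist_le_mul (K := 4) (f := shX) fun x y => ?_).continuous
    rw [Subtype.dist_eq, Subtype.dist_eq, dist_def, dist_def]
    exact lip 1 rfl x.1 y.1 _ _ (fun m => rfl) (fun m => rfl)
  · refine (LipschitzWith.of_dist_le_mul (K := 4) (f := shX') fun x y => ?_).continuous
    rw [Subtype.dist_eq, Subtype.dist_eq, dist_def, dist_def]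
    exact lip (-1) rfl x.1 y.1 _ _ (fun m => rfl) (fun m => rfl)
  · intro x
    apply Subtype.ext
    funext m
    show x.1 (m - 1 + 1) = x.1 m
    rw [sub_add_cancel]
  · intro x
    apply Subtype.ext
    funext m
    show x.1 (m + 1 - 1) = x.1 m
    rw [add_sub_cancel_right]

end Pool.Agent.Q259.SPQ.TaskShift
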