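import Pool.Agent.Q259.SPQ.Stmts

set_option autoImplicit false

namespace Pool.Agent.Q259.SPQ.TaskSmallLow

open Pool.Agent.Q259.SPQ

theorem iter (t : ℕ) : ∀ (x : XX) (m : ℤ), (shX^[t] x).1 m = x.1 (m + t) := by
  induction t with
  | zero =>
    intro x m
    simp
  | succ t ih =>
    intro x m
    rw [Function.iterate_succ_apply, ih]
    have h : m + (t : ℤ) + 1 = m + ((t + 1 : ℕ) : ℤ) := by
      push_cast
      ring
    rw [← h]
    rfl

theorem half_le (x y : XX) (t : ℕ) (h : x.1 t ≠ y.1 t) :
    1 / 2 ≤ dist (shX^[t] x) (shX^[t] y) := by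
  have h3 := le_DD (shX^[t] x).1 (shX^[t] y).1 0
  rw [iter, iter] at h3
  simp only [zero_add, Int.natAbs_zero, pow_zero, one_mul] at h3
  have h4 : 1 / 2 ≤ d (x.1 t) (y.1 t) := by
    unfold d
    rw [if_neg h]
    split_ifs <;> norm_num
  exact h4.trans h3

theorem main (hExt : TaskExt) (hDT : TaskDT) : Pool.Agent.Q259.SPQ.TaskSmallLow := by
  classical
  intro δ T hδ hδ2 hT
  have hph : (fun u : List Sym => u.map (ph false)) = id := by
    funext u
    have h1 : ph false = id := by
      funext s
      rcases s with _ | ⟨u, c⟩ <;> simp [ph]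
    rw [h1]
    simp
  have hW : Wn false T = {u : List Sym | Lang u ∧ u.length = T}.ncard := by
    unfold Wn
    rw [hph, Set.image_id]
  have hfin : {u : List Sym | Lang u ∧ u.length = T}.Finite :=
    (List.finite_length_eq Sym T).subset fun u hu => hu.2
  choose f hf using hExt
  have key : ∀ u v : List Sym, ∀ (hu : Lang u) (hv : Lang v), u.length = T → v.length = T →
      (∀ t : ℕ, t < T → (f u hu).1 t = (f v hv).1 t) → u = v := by
    intro u v hu hv hul hvl h
    rw [← hf u hu, ← hf v hv, hul, hvl]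
    unfold win
    congr 1
    funext i
    rw [zero_add]
    exact h i i.2
  let F : hfin.toFinset → XX := fun u => f u.1 (hfin.mem_toFinset.1 u.2).1
  have hFi : Function.Injective F := by
    intro u v huv
    apply Subtype.ext
    refine key u.1 v.1 (hfin.mem_toFinset.1 u.2).1 (hfin.mem_toFinset.1 v.2).1
      (hfin.mem_toFinset.1 u.2).2 (hfin.mem_toFinset.1 v.2).2 fun t _ => ?_
    have h1 : (F u).1 t = (F v).1 t := by rw [huv]
    exact h1
  refine ⟨hfin.toFinset.attach.image F, ?_, ?_⟩
  · rw [Finset.card_image_of_injective _ hFi, Finset.card_attach, hW,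
      Set.ncard_eq_toFinset_card _ hfin]
  · intro x hx y hy hxy
    obtain ⟨u, -, rfl⟩ := Finset.mem_image.1 hx
    obtain ⟨v, -, rfl⟩ := Finset.mem_image.1 hy
    rw [(hDT XX shX δ T _ _ hT).1]
    by_contra hcon
    push Not at hcon
    apply hxy
    have h2 : u = v := by
      apply Subtype.ext
      refine key u.1 v.1 (hfin.mem_toFinset.1 u.2).1 (hfin.mem_toFinset.1 v.2).1
        (hfin.mem_toFinset.1 u.2).2 (hfin.mem_toFinset.1 v.2).2 fun t ht => ?_
      by_contra hne
      have h3 := half_le (F u) (F v) t hne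
      have h4 := hcon t ht
      linarith
    rw [h2]

end Pool.Agent.Q259.SPQ.TaskSmallLow
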