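import Pool.Agent.Q259.SPQ.Stmts

/-! Entropy bound by the number of words (blueprint lemma for `MP_307271_an`, Q2). -/

namespace Pool.Agent.Q259.SPQ.TaskSmallUp
open Filter Topology
open Pool.Agent.Q259.SPQ

theorem iter_apply (t : ℕ) : ∀ (x : XX) (i : ℤ), (shX^[t] x).1 i = x.1 (i + t) := by
  induction t with
  | zero => intro x i; simp
  | succ t ih =>
    intro x i
    rw [Function.iterate_succ_apply, ih]
    exact congrArg x.1 (show i + t + 1 = i + ((t + 1 : ℕ) : ℤ) by push_cast; ring)

theorem ph_false (s : Sym) : ph false s = s := by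
  rcases s with _ | ⟨u, c⟩ <;> simp [ph]

theorem main (h2 : TaskClose) (h1 : TaskDT) : Pool.Agent.Q259.SPQ.TaskSmallUp := by
  classical
  intro ε hε
  obtain ⟨m, hm⟩ := exists_pow_lt_of_lt_one hε (show (1 / 4 : ℝ) < 1 by norm_num)
  have hm' : (1 / 4 : ℝ) ^ (m + 1) < ε := by
    have h3 : (0 : ℝ) < (1 / 4 : ℝ) ^ m := by positivity
    rw [pow_succ]
    linarith
  refine ⟨2 * m + 1, ?_⟩
  intro T S hT hS
  set Φ : XX → List Sym := fun x => win x.1 (-(m : ℤ)) (T + (2 * m + 1)) with hΦ
  have hinj : Set.InjOn Φ S := by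
    intro x hx y hy hxy
    by_contra hne
    have h3 := hS x hx y hy hne
    have h4 : DT shX T x y < ε := by
      rw [(h1 XX shX ε T x y hT).2]
      intro t ht
      refine lt_of_le_of_lt ?_ hm'
      show dist (shX^[t] x).1 (shX^[t] y).1 ≤ _
      apply h2.1
      intro i hi
      rw [iter_apply, iter_apply]
      have hk : (i + t + m).toNat < T + (2 * m + 1) := by omega
      simp only [hΦ, win] at hxy
      have h5 := congrFun (List.ofFn_injective hxy) ⟨(i + t + m).toNat, hk⟩
      have h6 : -(m : ℤ) + (((i + t + m).toNat : ℕ) : ℤ) = i + t := by omega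
      simp only [h6] at h5
      exact h5
    linarith
  have hset : (fun u : List Sym => u.map (ph false)) '' {u | Lang u ∧ u.length = T + (2 * m + 1)} =
      {u | Lang u ∧ u.length = T + (2 * m + 1)} := by
    have : (fun u : List Sym => u.map (ph false)) = id := by
      funext u
      simp only [id]
      conv_rhs => rw [← List.map_id u]
      exact List.map_congr_left fun s _ => ph_false s
    rw [this, Set.image_id]
  have hfin : {u : List Sym | Lang u ∧ u.length = T + (2 * m + 1)}.Finite :=
    (List.finite_length_eq Sym (T + (2 * m + 1))).subset fun u hu => hu.2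
  unfold Wn
  rw [hset, ← Set.ncard_coe_finset, ← Set.ncard_image_of_injOn hinj]
  refine Set.ncard_le_ncard ?_ hfin
  rintro _ ⟨x, _, rfl⟩
  exact ⟨x.2 _ _, by simp only [hΦ, win, List.length_ofFn]⟩

end Pool.Agent.Q259.SPQ.TaskSmallUp
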