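import Pool.Agent.Q259.SPQ.Stmts

set_option autoImplicit false

namespace Pool.Agent.Q259.SPQ.TaskSpanPts

open Pool.Agent.Q259.SPQ

theorem main (hTr : TaskTr) (hExt : TaskExt) : Pool.Agent.Q259.SPQ.TaskSpanPts := by
  classical
  intro T S hT hS hsp
  have hex : ∀ u : S, ∃ x : XX, win x.1 0 T = u.1 := by
    rintro ⟨u, hu⟩
    obtain ⟨x, hx⟩ := hExt u (hS u hu).1
    rw [(hS u hu).2] at hx
    exact ⟨x, hx⟩
  choose x hx using hex
  refine ⟨S.attach.image x, ?_, ?_⟩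
  · exact Finset.card_image_le.trans (by rw [Finset.card_attach])
  · intro y
    obtain ⟨s, hs, hd⟩ := hsp (win y.1 0 T) (y.2 0 T) (List.length_ofFn)
    refine ⟨x ⟨s, hs⟩, Finset.mem_image.2 ⟨⟨s, hs⟩, Finset.mem_attach _ _, rfl⟩, ?_⟩
    by_contra hlt
    rw [not_lt] at hlt
    have h1 := (hTr T (x ⟨s, hs⟩) y hT).1 hlt
    rw [hx ⟨s, hs⟩] at h1
    exact hd h1

end Pool.Agent.Q259.SPQ.TaskSpanPts
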