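import Pool.Agent.Q259.SPQ.Stmts

set_option autoImplicit false

namespace Pool.Agent.Q259.SPQ.TaskSpanUp
open Pool.Agent.Q259.SPQ
open Filter Topology

/-- representative letter -/
def red (c : Bool) (v : V) : V := if c = true then 0 else if v = 0 then 0 else 1

/-- representative symbol -/
def ph : Sym → Sym
  | none => none
  | some (v, c) => some (red c v, c)

theorem not_dis_ph (b : Sym) : ¬ dis (ph b) b := by
  rcases b with _ | ⟨v, c⟩
  · simp [dis, ph]
  · show ¬ (c ≠ c ∨ ¬ nd c (red c v) v)
    rintro (h | h)
    · exact h rfl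
    · apply h
      revert h
      cases c <;> revert v <;> decide

theorem not_dis_self (b : Sym) : ¬ dis b b := by
  rcases b with _ | ⟨v, c⟩
  · simp [dis]
  · show ¬ (c ≠ c ∨ ¬ nd c v v)
    rintro (h | h)
    · exact h rfl
    · exact h (Or.inl rfl)

theorem not_LDis_ph (u : List Sym) : ¬ LDis (u.map ph) u := by
  rintro ⟨i, a, b, h1, h2, h3⟩
  rw [List.getElem?_map, h2] at h1
  simp only [Option.map_some, Option.some.injEq] at h1
  exact not_dis_ph b (h1 ▸ h3)

theorem not_LDis_self (u : List Sym) : ¬ LDis u u := by
  rintro ⟨i, a, b, h1, h2, h3⟩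
  rw [h1] at h2
  simp only [Option.some.injEq] at h2
  exact not_dis_self b (h2 ▸ h3)

theorem map_Z (p : ℕ) : (Z p).map ph = Z p := by
  unfold Z
  rw [List.map_replicate]
  rfl

theorem map_W (c : Bool) (w : List V) : (W c w).map ph = W c (w.map (red c)) := by
  unfold W
  rw [List.map_map, List.map_map]
  rfl

/-- the letters of words over `{0, 1}` -/
def bit (b : Bool) : V := if b then 1 else 0

theorem red_eq (c : Bool) (v : V) : bit (decide (red c v = 1)) = red c v := by
  unfold red bit
  cases c <;> by_cases h : v = 0 <;> simp [h]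

def R (side c : Bool) (p : ℕ) (w : List V) : List Sym :=
  if side then Z p ++ W c w else W c w ++ Z p

theorem len_Z (p : ℕ) : (Z p).length = p := List.length_replicate
theorem len_W (c : Bool) (w : List V) : (W c w).length = w.length := List.length_map _

theorem Z_add (p q : ℕ) : Z (p + q) = Z p ++ Z q := by
  unfold Z
  rw [List.replicate_add]

theorem W_app (c : Bool) (v w : List V) : W c (v ++ w) = W c v ++ W c w := by
  unfold W
  rw [List.map_append]

theorem mem_words (m : ℕ) (w : List V) (h : w.length = m) : w ∈ words m := by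
  unfold words
  subst h
  refine List.mem_map.2 ⟨fun i => w.get i, Finset.mem_toList.2 (Finset.mem_univ _), ?_⟩
  exact List.ofFn_get w

theorem suf (g : ℕ) (l : List (List V)) : Z g <:+ Z g ++ l.flatMap (blk g) := by
  induction l using List.reverseRecOn with
  | nil => simp
  | append_singleton l x _ =>
    have hb : blk g x = W true x ++ Z g ++ W false x ++ Z g := rfl
    rw [List.flatMap_append, List.flatMap_singleton, hb]
    exact ⟨Z g ++ (l.flatMap (blk g) ++ (W true x ++ Z g ++ W false x)), by
      simp only [List.append_assoc]⟩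

theorem blk_inf (k : ℕ) (w : List V) (hw : w.length = n k) :
    Z (g k) ++ blk (g k) w <:+: P (k + 1) := by
  obtain ⟨l1, l2, h⟩ := List.append_of_mem (mem_words (n k) w hw)
  obtain ⟨t, ht⟩ := suf (g k) l1
  have hP : P (k + 1) = P k ++ Z (g k) ++ (words (n k)).flatMap (blk (g k)) ++ P k := rfl
  refine ⟨P k ++ t, l2.flatMap (blk (g k)) ++ P k, ?_⟩
  rw [hP, h, List.flatMap_append, List.flatMap_cons]
  have : P k ++ Z (g k) ++ (l1.flatMap (blk (g k)) ++ (blk (g k) w ++ l2.flatMap (blk (g k)))) ++ P k
      = P k ++ (Z (g k) ++ l1.flatMap (blk (g k))) ++ (blk (g k) w ++ l2.flatMap (blk (g k))) ++ P k := by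
    simp only [List.append_assoc]
  rw [this, ← ht]
  simp only [List.append_assoc]

theorem R_lang (k : ℕ) (side c : Bool) (p : ℕ) (w : List V) (hp : p ≤ g k) (hw : w.length ≤ n k) :
    Lang (R side c p w) := by
  obtain ⟨q, hq⟩ := Nat.exists_eq_add_of_le hp
  have hq' : g k = q + p := by omega
  set z := List.replicate (n k - w.length) (0 : V) with hz
  have hz1 : (w ++ z).length = n k := by
    rw [List.length_append, hz, List.length_replicate]; omega
  have hz2 : (z ++ w).length = n k := by
    rw [List.length_append, hz, List.length_replicate]; omega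
  refine ⟨k + 1, ?_⟩
  cases side
  · -- `W c w ++ Z p`
    have h := blk_inf k (z ++ w) hz2
    refine List.IsInfix.trans ?_ h
    show W c w ++ Z p <:+: _
    unfold blk
    cases c
    · refine ⟨Z (g k) ++ (W true (z ++ w) ++ Z (g k) ++ W false z), Z q, ?_⟩
      have e : Z (g k) = Z p ++ Z q := by rw [hq, Z_add]
      rw [W_app false z w]
      conv_rhs => rw [show Z (g k) ++ (W true (z ++ w) ++ Z (g k) ++ (W false z ++ W false w) ++ Z (g k))
        = Z (g k) ++ (W true (z ++ w) ++ Z (g k) ++ (W false z ++ W false w) ++ (Z p ++ Z q)) by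
          rw [← e]]
      simp only [List.append_assoc]
    · refine ⟨Z (g k) ++ W true z, Z q ++ W false (z ++ w) ++ Z (g k), ?_⟩
      have e : Z (g k) = Z p ++ Z q := by rw [hq, Z_add]
      rw [W_app true z w]
      conv_rhs => rw [show Z (g k) ++ ((W true z ++ W true w) ++ Z (g k) ++ W false (z ++ w) ++ Z (g k))
        = Z (g k) ++ ((W true z ++ W true w) ++ (Z p ++ Z q) ++ W false (z ++ w) ++ Z (g k)) by
          rw [← e]]
      simp only [List.append_assoc]
  · -- `Z p ++ W c w`
    have h := blk_inf k (w ++ z) hz1
    refine List.IsInfix.trans ?_ h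
    show Z p ++ W c w <:+: _
    unfold blk
    cases c
    · refine ⟨Z (g k) ++ W true (w ++ z) ++ Z q, W false z ++ Z (g k), ?_⟩
      have e : Z (g k) = Z q ++ Z p := by rw [hq', Z_add]
      rw [W_app false w z]
      conv_rhs => rw [show Z (g k) ++ (W true (w ++ z) ++ Z (g k) ++ (W false w ++ W false z) ++ Z (g k))
        = Z (g k) ++ (W true (w ++ z) ++ (Z q ++ Z p) ++ (W false w ++ W false z) ++ Z (g k)) by
          rw [← e]]
      simp only [List.append_assoc]
    · refine ⟨Z q, W true z ++ Z (g k) ++ W false (w ++ z) ++ Z (g k), ?_⟩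
      have e : Z (g k) = Z q ++ Z p := by rw [hq', Z_add]
      rw [W_app true w z]
      conv_rhs => rw [show Z (g k) ++ ((W true w ++ W true z) ++ Z (g k) ++ W false (w ++ z) ++ Z (g k))
        = (Z q ++ Z p) ++ ((W true w ++ W true z) ++ Z (g k) ++ W false (w ++ z) ++ Z (g k)) by
          rw [← e]]
      simp only [List.append_assoc]

open Classical in
theorem main (hfam : TaskLangFam) (_hgrow : TaskGrow) : Pool.Agent.Q259.SPQ.TaskSpanUp := by
  intro k
  set T := g k with hT
  have hgdef : T = (P k).length + 1 := rfl
  have hTn : T ≤ n k := by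
    have h1 : n k = T ^ 2 := rfl
    rw [h1]
    nlinarith [Nat.zero_le (P k).length]
  let M : List Sym := Z T ++ P k ++ Z T
  let S1 : Finset (List Sym) :=
    ((Finset.range (M.length + 1)).image fun i => (M.drop i).take T).filter
      fun u => Lang u ∧ u.length = T
  let S2 : Finset (List Sym) := (Finset.range (T + 1)).biUnion fun p =>
    (Finset.univ : Finset (Bool × Bool × (Fin (T - p) → Bool))).image fun q =>
      R q.1 q.2.1 p (List.ofFn fun i => bit (q.2.2 i))
  refine ⟨S1 ∪ S2, ?_, ?_, ?_⟩
  · intro u hu
    rcases Finset.mem_union.1 hu with h | h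
    · exact (Finset.mem_filter.1 h).2
    · obtain ⟨p, hp, h⟩ := Finset.mem_biUnion.1 h
      obtain ⟨q, -, rfl⟩ := Finset.mem_image.1 h
      have hp' : p ≤ T := Nat.lt_succ_iff.1 (Finset.mem_range.1 hp)
      refine ⟨R_lang k _ _ _ _ hp' (by rw [List.length_ofFn]; omega), ?_⟩
      unfold R
      split_ifs
      · rw [List.length_append, len_Z, len_W, List.length_ofFn]; omega
      · rw [List.length_append, len_Z, len_W, List.length_ofFn]; omega
  · intro u hu hlen
    have key : ∀ (side c : Bool) (p : ℕ) (w : List V), u = R side c p w → ∃ s ∈ S1 ∪ S2, ¬ LDis s u := by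
      intro side c p w h
      have hl : p + w.length = T := by
        rw [← hlen, h]
        unfold R
        split_ifs
        · rw [List.length_append, len_Z, len_W]
        · rw [List.length_append, len_Z, len_W, add_comm]
      have hpT : p ≤ T := by omega
      have hm : u.map ph = R side c p (w.map (red c)) := by
        rw [h]
        unfold R
        split_ifs
        · rw [List.map_append, map_Z, map_W]
        · rw [List.map_append, map_Z, map_W]
      refine ⟨u.map ph, Finset.mem_union.2 (Or.inr ?_), not_LDis_ph u⟩
      refine Finset.mem_biUnion.2 ⟨p, Finset.mem_range.2 (by omega), ?_⟩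
      have hw : w.length = T - p := by omega
      refine Finset.mem_image.2 ⟨(side, c, fun i => decide (red c (w.get (Fin.cast hw.symm i)) = 1)),
        Finset.mem_univ _, ?_⟩
      rw [hm]
      dsimp only
      congr 1
      apply List.ext_getElem
      · rw [List.length_ofFn, List.length_map, hw]
      · intro i h1 h2
        rw [List.getElem_ofFn, List.getElem_map, red_eq]
        rfl
    rcases hfam k u hu hlen with h | ⟨c, p, w, h | h⟩
    · refine ⟨u, Finset.mem_union.2 (Or.inl (Finset.mem_filter.2 ⟨?_, hu, hlen⟩)), not_LDis_self u⟩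
      obtain ⟨s, t, hst⟩ := h
      refine Finset.mem_image.2 ⟨s.length, Finset.mem_range.2 ?_, ?_⟩
      · have : M.length = s.length + u.length + t.length := by
          show (Z T ++ P k ++ Z T).length = _
          rw [← hst, List.length_append, List.length_append]
        omega
      · show ((Z T ++ P k ++ Z T).drop s.length).take T = u
        rw [← hst, List.append_assoc, List.drop_left, ← hlen, List.take_left]
    · exact key true c p w h
    · exact key false c p w h
  · have hM : M.length = T + (P k).length + T := by
      show (Z T ++ P k ++ Z T).length = _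
      rw [List.length_append, List.length_append, len_Z]
    have h1 : S1.card ≤ 3 * T := by
      refine (Finset.card_filter_le _ _).trans (Finset.card_image_le.trans ?_)
      rw [Finset.card_range]
      omega
    have h2 : S2.card ≤ (T + 1) * (4 * 2 ^ T) := by
      have := Finset.card_biUnion_le_card_mul (Finset.range (T + 1))
        (fun p => (Finset.univ : Finset (Bool × Bool × (Fin (T - p) → Bool))).image fun q =>
          R q.1 q.2.1 p (List.ofFn fun i => bit (q.2.2 i))) (4 * 2 ^ T) (fun p _ => by
            refine Finset.card_image_le.trans ?_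
            rw [Finset.card_univ, Fintype.card_prod, Fintype.card_prod, Fintype.card_bool,
              Fintype.card_fun, Fintype.card_bool, Fintype.card_fin]
            have : 2 ^ (T - p) ≤ 2 ^ T := Nat.pow_le_pow_right (by norm_num) (Nat.sub_le _ _)
            omega)
      rwa [Finset.card_range] at this
    have h3 : 1 ≤ 2 ^ T := Nat.one_le_two_pow
    calc (S1 ∪ S2).card ≤ S1.card + S2.card := Finset.card_union_le _ _
      _ ≤ 3 * T + (T + 1) * (4 * 2 ^ T) := by omega
      _ ≤ 8 * (T + 1) * 2 ^ T := by nlinarith

end Pool.Agent.Q259.SPQ.TaskSpanUp
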