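import Pool.Agent.Q259.SPQ.Stmts

set_option autoImplicit false

namespace Pool.Agent.Q259.SPQ.TaskWnLow
open Filter Topology Pool.Agent.Q259.SPQ

private lemma ph_false (x : Sym) : ph false x = x := by
  rcases x with _ | ⟨u, c⟩ <;> simp [ph]

private lemma mem_words (w : List V) : w ∈ words w.length := by
  unfold words
  rw [List.mem_map]
  exact ⟨w.get, by simp, List.ofFn_get w⟩

private lemma infix_flatMap {α β : Type*} (f : α → List β) (l : List α) (a : α) (h : a ∈ l) :
    f a <:+: l.flatMap f := by
  obtain ⟨s, t, rfl⟩ := List.append_of_mem h
  rw [List.flatMap_append, List.flatMap_cons]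
  exact ⟨s.flatMap f, t.flatMap f, by simp⟩

theorem main (hG : TaskGrow) : Pool.Agent.Q259.SPQ.TaskWnLow := by
  classical
  intro T
  have hset : (fun u : List Sym => u.map (ph false)) '' {u | Lang u ∧ u.length = T} =
      {u | Lang u ∧ u.length = T} := by
    have : (fun u : List Sym => u.map (ph false)) = id := by
      funext u
      have : ph false = id := funext ph_false
      rw [this, List.map_id]
      rfl
    rw [this, Set.image_id]
  unfold Wn
  rw [hset]
  have hfin : {u : List Sym | Lang u ∧ u.length = T}.Finite :=
    (List.finite_length_eq Sym T).subset (fun u hu => hu.2)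
  have hlang : ∀ w : List V, w.length = T → Lang (W true w) := by
    intro w hw
    obtain ⟨-, h2, -⟩ := hG
    have hn : T ≤ n T := by
      have := h2 T
      unfold n
      nlinarith
    set w' : List V := w ++ List.replicate (n T - T) 0 with hw'
    have hw'l : w'.length = n T := by
      rw [hw', List.length_append, List.length_replicate, hw]
      omega
    refine ⟨T + 1, ?_⟩
    have h3 : W true w <:+: blk (g T) w' := by
      refine ⟨[], W true (List.replicate (n T - T) 0) ++ Z (g T) ++ W false w' ++ Z (g T), ?_⟩
      unfold blk
      rw [hw']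
      simp [W]
    have h4 : blk (g T) w' <:+: (words (n T)).flatMap (blk (g T)) := by
      apply infix_flatMap
      rw [← hw'l]
      exact mem_words w'
    have h5 : (words (n T)).flatMap (blk (g T)) <:+: P (T + 1) :=
      ⟨P T ++ Z (g T), P T, rfl⟩
    exact h3.trans (h4.trans h5)
  set F : Finset (List Sym) := (Finset.univ : Finset (Fin T → V)).image
    (fun w => W true (List.ofFn w)) with hF
  have hcard : F.card = 5 ^ T := by
    rw [hF, Finset.card_image_of_injective, Finset.card_univ, Fintype.card_fun, Fintype.card_fin,
      Fintype.card_fin]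
    intro w w' h
    apply List.ofFn_injective
    have hinj : Function.Injective (fun v : V => (some (v, true) : Sym)) := by
      intro a b hab
      simpa using hab
    exact List.map_injective_iff.2 hinj h
  rw [← hcard, ← Set.ncard_coe_finset]
  refine Set.ncard_le_ncard ?_ hfin
  intro u hu
  rw [hF, Finset.coe_image] at hu
  obtain ⟨w, -, rfl⟩ := hu
  refine ⟨hlang _ (List.length_ofFn), ?_⟩
  simp [W]

end Pool.Agent.Q259.SPQ.TaskWnLow
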