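import Pool.Agent.Q259.SPQ.Stmts

/-! `TaskWnUp` of the blueprint for MP_307271_an, Q2 (helper138). -/

namespace Pool.Agent.Q259.SPQ.TaskWnUp
open Pool.Agent.Q259.SPQ

private noncomputable def lists (m : ℕ) (R : Finset Sym) : Finset (List Sym) :=
  (Fintype.piFinset fun _ : Fin m => R).image List.ofFn

private theorem mem_lists (m : ℕ) (R : Finset Sym) (l : List Sym) (h : l.length = m)
    (hR : ∀ x ∈ l, x ∈ R) : l ∈ lists m R := by
  subst h
  refine Finset.mem_image.2 ⟨fun i => l.get i, ?_, List.ofFn_get l⟩
  rw [Fintype.mem_piFinset]
  intro i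
  exact hR _ (List.get_mem l i)

private theorem card_lists (m M T : ℕ) (R : Finset Sym) (hR : R.card ≤ M) (hM : 0 < M) (hm : m ≤ T) :
    (lists m R).card ≤ M ^ T := by
  unfold lists
  refine Finset.card_image_le.trans ?_
  rw [Fintype.card_piFinset_const]
  exact (Nat.pow_le_pow_left hR m).trans (Nat.pow_le_pow_right hM hm)

private def R (b c : Bool) : Finset Sym := Finset.univ.image fun v : V => ph b (some (v, c))

private theorem card_R : ∀ b c : Bool, (R b c).card ≤ mb b := by decide

private theorem map_W (b c : Bool) (w : List V) :
    (W c w).map (ph b) ∈ lists w.length (R b c) := by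
  refine mem_lists _ _ _ (by simp [W]) ?_
  intro x hx
  simp only [W, List.map_map, List.mem_map] at hx
  obtain ⟨v, _, rfl⟩ := hx
  exact Finset.mem_image.2 ⟨v, Finset.mem_univ _, rfl⟩

private theorem map_Z (b : Bool) (p : ℕ) : (Z p).map (ph b) = Z p := by
  simp [Z, ph]

theorem main (hL : TaskLangFam) : Pool.Agent.Q259.SPQ.TaskWnUp := by
  classical
  intro b k
  set T := g k with hT
  set L : List Sym := Z T ++ P k ++ Z T with hLd
  set F0 : Finset (List Sym) :=
    (Finset.range (L.length + 1)).image (fun i => ((L.drop i).take T).map (ph b)) with hF0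
  set A : Bool → ℕ → Finset (List Sym) := fun c p =>
    (lists (T - p) (R b c)).image (fun l => Z p ++ l) with hA
  set B : Bool → ℕ → Finset (List Sym) := fun c p =>
    (lists (T - p) (R b c)).image (fun l => l ++ Z p) with hB
  set F : Finset (List Sym) := F0 ∪ (Finset.univ ×ˢ Finset.range (T + 1)).biUnion
      (fun q : Bool × ℕ => A q.1 q.2 ∪ B q.1 q.2) with hF
  have hQ : (P k).length ≤ T := by
    rw [hT]; unfold g; omega
  have hsub : ((fun u : List Sym => u.map (ph b)) '' {u | Lang u ∧ u.length = T}) ⊆ (F : Set (List Sym)) := by
    rintro _ ⟨u, ⟨hu, hlen⟩, rfl⟩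
    rw [Finset.mem_coe, hF, Finset.mem_union, Finset.mem_biUnion]
    rcases hL k u hu hlen with h | ⟨c, p, w, h⟩
    · left
      obtain ⟨s, t, hst⟩ := h
      rw [hF0, Finset.mem_image]
      refine ⟨s.length, ?_, ?_⟩
      · rw [Finset.mem_range, hLd, hT, ← hst]
        simp only [List.length_append]
        omega
      · rw [hLd]
        show List.map (ph b) (List.take (g k) (List.drop s.length (Z (g k) ++ P k ++ Z (g k)))) = _
        have hlen' : g k = u.length := by rw [hlen, hT]
        rw [← hst, List.append_assoc, List.drop_left, hlen', List.take_left]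
    · right
      refine ⟨(c, p), ?_, ?_⟩
      · rw [Finset.mem_product]
        refine ⟨Finset.mem_univ _, Finset.mem_range.2 ?_⟩
        show p < T + 1
        rcases h with h | h
        · have h2 := congrArg List.length h
          rw [hlen] at h2
          simp [Z, W] at h2
          omega
        · have h2 := congrArg List.length h
          rw [hlen] at h2
          simp [Z, W] at h2
          omega
      · rw [Finset.mem_union]
        rcases h with h | h
        · left
          have h2 := congrArg List.length h
          rw [hlen] at h2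
          simp only [Z, W, List.length_append, List.length_replicate, List.length_map] at h2
          have h3 : T - p = w.length := by omega
          rw [hA]
          refine Finset.mem_image.2 ⟨(W c w).map (ph b), ?_, ?_⟩
          · show _ ∈ lists (T - p) (R b c)
            rw [h3]; exact map_W b c w
          · show _ = List.map (ph b) u
            rw [h, List.map_append, map_Z]
        · right
          have h2 := congrArg List.length h
          rw [hlen] at h2
          simp only [Z, W, List.length_append, List.length_replicate, List.length_map] at h2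
          have h3 : T - p = w.length := by omega
          rw [hB]
          refine Finset.mem_image.2 ⟨(W c w).map (ph b), ?_, ?_⟩
          · show _ ∈ lists (T - p) (R b c)
            rw [h3]; exact map_W b c w
          · show _ = List.map (ph b) u
            rw [h, List.map_append, map_Z]
  have hm0 : 0 < mb b := by cases b <;> decide
  have h0 : F0.card ≤ 3 * T + 1 := by
    rw [hF0]
    refine Finset.card_image_le.trans ?_
    rw [Finset.card_range, hLd]
    simp only [List.length_append, Z, List.length_replicate]
    omega
  have hAc : ∀ c p, (A c p).card ≤ mb b ^ T := fun c p =>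
    Finset.card_image_le.trans (card_lists _ _ _ _ (card_R b c) hm0 (Nat.sub_le _ _))
  have hBc : ∀ c p, (B c p).card ≤ mb b ^ T := fun c p =>
    Finset.card_image_le.trans (card_lists _ _ _ _ (card_R b c) hm0 (Nat.sub_le _ _))
  have hbi : ((Finset.univ ×ˢ Finset.range (T + 1)).biUnion
      (fun q : Bool × ℕ => A q.1 q.2 ∪ B q.1 q.2)).card ≤
      (2 * (T + 1)) * (mb b ^ T + mb b ^ T) := by
    refine Finset.card_biUnion_le.trans ?_
    refine (Finset.sum_le_card_nsmul _ _ (mb b ^ T + mb b ^ T) ?_).trans ?_
    · intro q _
      exact (Finset.card_union_le _ _).trans (Nat.add_le_add (hAc _ _) (hBc _ _))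
    · rw [Finset.card_product, Finset.card_range, Finset.card_univ, Fintype.card_bool, smul_eq_mul]
  have h9 : 1 ≤ mb b ^ T := Nat.one_le_pow _ _ hm0
  have hfin : F.card ≤ (3 * T + 1) + (2 * (T + 1)) * (mb b ^ T + mb b ^ T) :=
    (Finset.card_union_le _ _).trans (Nat.add_le_add h0 hbi)
  have hn : Wn b T ≤ F.card := by
    unfold Wn
    refine (Set.ncard_le_ncard hsub (Finset.finite_toSet F)).trans ?_
    rw [Set.ncard_coe_finset]
  calc Wn b T ≤ (3 * T + 1) + (2 * (T + 1)) * (mb b ^ T + mb b ^ T) := hn.trans hfin
    _ ≤ 8 * (T + 1) * mb b ^ T := by nlinarith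

end Pool.Agent.Q259.SPQ.TaskWnUp
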